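import Pool.Agent.Helper383.FM.Sum

/-!
# Summation over all points of a finite set
-/

set_option autoImplicit false

open Finset

namespace Pool.Agent.Helper383.FM

variable {d : ℕ}

/-- the key of a point: the dyadic level of its radius, and the dyadic cell containing it -/
def ky (ρ : (Fin d → ℤ) → ℕ) (n : Fin d → ℤ) : ℕ × (Fin d → ℤ) :=
  (lev ρ n, fun i => n i / (2 : ℤ) ^ lev ρ n)

theorem card_fiber (ρ : (Fin d → ℤ) → ℕ) (N : Finset (Fin d → ℤ)) (p : ℕ × (Fin d → ℤ)) :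
    ((N.filter (fun n => ky ρ n = p)).card : ℝ) ≤ ((2 : ℝ) ^ p.1) ^ d := by
  classical
  have hpos : (0 : ℤ) < 2 ^ p.1 := by positivity
  have h1 : N.filter (fun n => ky ρ n = p) ⊆
      Fintype.piFinset (fun i => Finset.Ico (p.2 i * 2 ^ p.1) (p.2 i * 2 ^ p.1 + 2 ^ p.1)) := by
    intro n hn
    have h2 := (Finset.mem_filter.mp hn).2
    have h3 : lev ρ n = p.1 := congrArg Prod.fst h2
    have h4 : (fun i => n i / (2 : ℤ) ^ lev ρ n) = p.2 := congrArg Prod.snd h2
    rw [Fintype.mem_piFinset]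
    intro i
    have h5 : n i / (2 : ℤ) ^ p.1 = p.2 i := by
      rw [← h4, h3]
    rw [Finset.mem_Ico, ← h5]
    constructor
    · exact Int.ediv_mul_le _ hpos.ne'
    · exact Int.lt_ediv_add_one_mul_self (n i) hpos |>.trans_eq (by ring)
  have h6 := Finset.card_le_card h1
  rw [Fintype.card_piFinset] at h6
  have h7 : ∏ i : Fin d, (Finset.Ico (p.2 i * 2 ^ p.1) (p.2 i * 2 ^ p.1 + 2 ^ p.1)).card =
      (2 ^ p.1) ^ d := by
    rw [Finset.prod_congr rfl (g := fun _ => 2 ^ p.1)]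
    · simp
    · intro i _
      rw [Int.card_Ico]
      have h8 : p.2 i * 2 ^ p.1 + 2 ^ p.1 - p.2 i * 2 ^ p.1 = ((2 ^ p.1 : ℕ) : ℤ) := by
        push_cast; ring
      rw [h8, Int.toNat_natCast]
  rw [h7] at h6
  exact_mod_cast h6

theorem core_sum (hd : 1 ≤ d) {β Γ : ℝ} {f : (Fin d → ℤ) → ℝ} {ρ : (Fin d → ℤ) → ℕ}
    {N : Finset (Fin d → ℤ)} (hβ0 : 0 < β) (hβ1 : β < 1) (hΓ : 1 ≤ Γ)
    (hG : Good β Γ f ρ N) {G F : ℝ}
    (hGG : ∀ Z : Finset ((Fin d → ℤ) × Fin d), ∑ p ∈ Z, |f (p.1 + e p.2) - f p.1| ≤ G)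
    (hFF : ∀ Z : Finset (Fin d → ℤ), ∑ m ∈ Z, f m ≤ F) {α : ℝ} (hα0 : 0 ≤ α) (hαβ : α ≤ β)
    {q : ℝ} (hq : q = d / (d - β + α)) :
    ∑ n ∈ N, ((ρ n : ℝ) ^ (β - 1 - d) * S f n (ρ n)) ^ q ≤
      (Γ * 3 ^ d * (CS d β Γ α * (G ^ (1 - α) * F ^ α))) ^ q := by
  classical
  have hd1 : (1 : ℝ) ≤ d := by exact_mod_cast hd
  have hden : 0 < (d : ℝ) - β + α := by linarith
  have hq1 : 1 ≤ q := by
    rw [hq, le_div_iff₀ hden]; linarith
  have hq0 : 0 < q := by linarith
  have hqd : q * ((d : ℝ) - β + α) = d := by rw [hq]; field_simp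
  -- representatives
  have hrep : ∀ p ∈ N.image (ky ρ), ∃ b ∈ N, ky ρ b = p := by
    intro p hp
    obtain ⟨b, hb, hbp⟩ := Finset.mem_image.mp hp
    exact ⟨b, hb, hbp⟩
  choose! rep hrepN hrepk using hrep
  set P := N.image (ky ρ) with hP
  set B := P.image rep with hB
  have hBN : B ⊆ N := by
    intro b hb
    obtain ⟨p, hp, rfl⟩ := Finset.mem_image.mp hb
    exact hrepN p hp
  have hSep : Sep ρ B := by
    intro b hb b' hb' hl hc
    obtain ⟨p, hp, rfl⟩ := Finset.mem_image.mp hb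
    obtain ⟨p', hp', rfl⟩ := Finset.mem_image.mp hb'
    have h1 := hrepk p hp
    have h2 := hrepk p' hp'
    have h3 : ky ρ (rep p) = ky ρ (rep p') := by
      unfold ky
      rw [Prod.mk.injEq]
      refine ⟨hl, ?_⟩
      funext i
      rw [hc i, hl]
    rw [h1, h2] at h3
    rw [h3]
  have hinj : Set.InjOn rep (P : Set (ℕ × (Fin d → ℤ))) := by
    intro p hp p' hp' h
    rw [← hrepk p (by exact_mod_cast hp), ← hrepk p' (by exact_mod_cast hp'), h]
  have hGB := hG.mono hBN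
  have hw := sep_weight hd hβ0 hβ1 hΓ hGB hSep hGG hFF hα0 (by linarith : α < 1)
  -- the bound on each fiber
  have hfib : ∀ p ∈ P, ∑ n ∈ N.filter (fun n => ky ρ n = p),
      ((ρ n : ℝ) ^ (β - 1 - d) * S f n (ρ n)) ^ q ≤
      (((2 : ℝ) ^ lev ρ (rep p)) ^ (α - 1) * (Γ * 3 ^ d * S f (rep p) (ρ (rep p)))) ^ q := by
    intro p hp
    set b := rep p with hb
    have hbN : b ∈ N := hrepN p hp
    have hbk : ky ρ b = p := hrepk p hp
    set k := lev ρ b with hk
    have hpk : p.1 = k := by rw [← hbk]; rfl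
    have h2k : (0 : ℝ) < 2 ^ k := by positivity
    have hSb := S_nonneg hG.nonneg b (ρ b)
    have hpt : ∀ n ∈ N.filter (fun n => ky ρ n = p),
        ((ρ n : ℝ) ^ (β - 1 - d) * S f n (ρ n)) ^ q ≤
        (((2 : ℝ) ^ k) ^ (β - 1 - d) * (Γ * 3 ^ d * S f b (ρ b))) ^ q := by
      intro n hn
      obtain ⟨hnN, hnk⟩ := Finset.mem_filter.mp hn
      have hnb : ky ρ n = ky ρ b := by rw [hnk, hbk]
      have hln : lev ρ n = k := congrArg Prod.fst hnb
      have hcell : ∀ i, n i / (2 : ℤ) ^ k = b i / (2 : ℤ) ^ k := by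
        intro i
        have h3 : (fun i => n i / (2 : ℤ) ^ lev ρ n) = (fun i => b i / (2 : ℤ) ^ lev ρ b) :=
          congrArg Prod.snd hnb
        have h4 := congrFun h3 i
        rw [hln] at h4
        exact h4
      have hpos : (0 : ℤ) < 2 ^ k := by positivity
      have hdist : ∀ i, |n i - b i| + (ρ n : ℕ) ≤ ((ρ n + 2 ^ k : ℕ) : ℤ) := by
        intro i
        have h5 := Int.emod_add_mul_ediv (n i) (2 ^ k)
        have h6 := Int.emod_add_mul_ediv (b i) (2 ^ k)
        have h7 := Int.emod_nonneg (n i) hpos.ne'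
        have h8 := Int.emod_lt_of_pos (n i) hpos
        have h9 := Int.emod_nonneg (b i) hpos.ne'
        have h10 := Int.emod_lt_of_pos (b i) hpos
        rw [hcell i] at h5
        have h11 : |n i - b i| ≤ 2 ^ k := by
          rw [abs_le]; constructor <;> linarith
        push_cast
        linarith
      have hρn := hG.one n hnN
      have hρb := hG.one b hbN
      have hn1 := two_pow_lev_le hρn
      have hn2 := lt_two_pow_lev (ρ := ρ) (b := n)
      have hb1 := two_pow_lev_le hρb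
      have hb2 := lt_two_pow_lev (ρ := ρ) (b := b)
      rw [hln] at hn1 hn2
      rw [← hk] at hb1 hb2
      have hR : ρ b ≤ ρ n + 2 ^ k := by omega
      have h12 := S_mono hG.nonneg hdist
      have h13 := hG.opt b hbN _ hR
      have hb0 : (0 : ℝ) < ρ b := by exact_mod_cast hρb
      have h14 : (((ρ n + 2 ^ k : ℕ) : ℝ) / ρ b) ^ ((d : ℝ) - β) ≤ 3 ^ d := by
        calc (((ρ n + 2 ^ k : ℕ) : ℝ) / ρ b) ^ ((d : ℝ) - β)
            ≤ (3 : ℝ) ^ ((d : ℝ) - β) := by
              apply Real.rpow_le_rpow (by positivity) _ (by linarith)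
              rw [div_le_iff₀ hb0]
              have : ρ n + 2 ^ k ≤ 3 * ρ b := by omega
              exact_mod_cast this
          _ ≤ (3 : ℝ) ^ (d : ℝ) :=
              Real.rpow_le_rpow_of_exponent_le (by norm_num) (by linarith)
          _ = 3 ^ d := Real.rpow_natCast _ _
      have h15 : S f n (ρ n) ≤ Γ * 3 ^ d * S f b (ρ b) := by
        refine (h12.trans h13).trans ?_
        apply mul_le_mul_of_nonneg_right _ hSb
        apply mul_le_mul_of_nonneg_left h14 (by linarith)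
      have h16 : (ρ n : ℝ) ^ (β - 1 - d) ≤ ((2 : ℝ) ^ k) ^ (β - 1 - d) := by
        apply Real.rpow_le_rpow_of_nonpos h2k (by exact_mod_cast hn1) (by linarith)
      apply Real.rpow_le_rpow _ _ hq0.le
      · exact mul_nonneg (by positivity) (S_nonneg hG.nonneg _ _)
      · exact mul_le_mul h16 h15 (S_nonneg hG.nonneg _ _) (by positivity)
    calc ∑ n ∈ N.filter (fun n => ky ρ n = p), ((ρ n : ℝ) ^ (β - 1 - d) * S f n (ρ n)) ^ q
        ≤ ∑ _n ∈ N.filter (fun n => ky ρ n = p),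
            (((2 : ℝ) ^ k) ^ (β - 1 - d) * (Γ * 3 ^ d * S f b (ρ b))) ^ q :=
          Finset.sum_le_sum hpt
      _ = ((N.filter (fun n => ky ρ n = p)).card : ℝ) *
            (((2 : ℝ) ^ k) ^ (β - 1 - d) * (Γ * 3 ^ d * S f b (ρ b))) ^ q := by
          rw [Finset.sum_const, nsmul_eq_mul]
      _ ≤ (((2 : ℝ) ^ k) ^ d) *
            (((2 : ℝ) ^ k) ^ (β - 1 - d) * (Γ * 3 ^ d * S f b (ρ b))) ^ q := by
          apply mul_le_mul_of_nonneg_right _ (by positivity)
          have := card_fiber ρ N p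
          rwa [hpk] at this
      _ = (((2 : ℝ) ^ k) ^ (α - 1) * (Γ * 3 ^ d * S f b (ρ b))) ^ q := by
          have hX : 0 ≤ Γ * 3 ^ d * S f b (ρ b) := by positivity
          rw [Real.mul_rpow (by positivity) hX, Real.mul_rpow (by positivity) hX, ← mul_assoc]
          congr 1
          rw [← Real.rpow_mul h2k.le, ← Real.rpow_mul h2k.le, ← Real.rpow_natCast ((2 : ℝ) ^ k) d,
            ← Real.rpow_add h2k]
          congr 1
          linear_combination (-1 : ℝ) * hqd
  calc ∑ n ∈ N, ((ρ n : ℝ) ^ (β - 1 - d) * S f n (ρ n)) ^ q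
      = ∑ p ∈ P, ∑ n ∈ N.filter (fun n => ky ρ n = p),
          ((ρ n : ℝ) ^ (β - 1 - d) * S f n (ρ n)) ^ q := by
        rw [Finset.sum_fiberwise_of_maps_to (fun n hn => Finset.mem_image_of_mem _ hn)]
    _ ≤ ∑ p ∈ P,
        (((2 : ℝ) ^ lev ρ (rep p)) ^ (α - 1) * (Γ * 3 ^ d * S f (rep p) (ρ (rep p)))) ^ q :=
        Finset.sum_le_sum hfib
    _ ≤ (∑ p ∈ P,
        ((2 : ℝ) ^ lev ρ (rep p)) ^ (α - 1) * (Γ * 3 ^ d * S f (rep p) (ρ (rep p)))) ^ q := by
        apply sum_rpow_le _ _ _ hq1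
        intro p _
        have := S_nonneg hG.nonneg (rep p) (ρ (rep p))
        positivity
    _ = (Γ * 3 ^ d * ∑ b ∈ B, ((2 : ℝ) ^ lev ρ b) ^ (α - 1) * S f b (ρ b)) ^ q := by
        congr 1
        rw [hB, Finset.sum_image hinj, Finset.mul_sum]
        refine Finset.sum_congr rfl fun p _ => ?_
        ring
    _ ≤ _ := by
        apply Real.rpow_le_rpow _ _ hq0.le
        · apply mul_nonneg (by positivity)
          apply Finset.sum_nonneg
          intro b _
          have := S_nonneg hG.nonneg b (ρ b)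
          positivity
        · exact mul_le_mul_of_nonneg_left hw (by positivity)

end Pool.Agent.Helper383.FM
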