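import Pool.Agent.Helper383.FM.Iso

/-!
# The key inequality: sums over nearly optimal cubes are controlled by the variation
-/

set_option autoImplicit false

open MeasureTheory Finset

open scoped ENNReal

namespace Pool.Agent.Helper383.FM

variable {d : ℕ}

/-- sum of `f` over a cube -/
noncomputable def S (f : (Fin d → ℤ) → ℝ) (b : Fin d → ℤ) (R : ℕ) : ℝ := ∑ m ∈ cube b R, f m

/-- the dyadic level of the radius -/
def lev (ρ : (Fin d → ℤ) → ℕ) (b : Fin d → ℤ) : ℕ := Nat.log 2 (ρ b)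

/-- the hypothesis on the cubes `cube b (ρ b)`, `b ∈ B` -/
structure Good (β Γ : ℝ) (f : (Fin d → ℤ) → ℝ) (ρ : (Fin d → ℤ) → ℕ)
    (B : Finset (Fin d → ℤ)) : Prop where
  nonneg : ∀ m, 0 ≤ f m
  one : ∀ b ∈ B, 1 ≤ ρ b
  opt : ∀ b ∈ B, ∀ R : ℕ, ρ b ≤ R →
    S f b R ≤ Γ * ((R : ℝ) / ρ b) ^ ((d : ℝ) - β) * S f b (ρ b)

theorem Good.mono {β Γ : ℝ} {f : (Fin d → ℤ) → ℝ} {ρ : (Fin d → ℤ) → ℕ}
    {B B' : Finset (Fin d → ℤ)} (h : Good β Γ f ρ B) (hB : B' ⊆ B) : Good β Γ f ρ B' :=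
  ⟨h.nonneg, fun b hb => h.one b (hB hb), fun b hb => h.opt b (hB hb)⟩

theorem cube_subset {b b' : Fin d → ℤ} {R R' : ℕ} (h : ∀ i, |b i - b' i| + R ≤ R') :
    cube b R ⊆ cube b' R' := by
  intro m hm
  rw [mem_cube] at hm ⊢
  intro i
  have h1 := hm i
  have h2 := h i
  calc |m i - b' i| = |(m i - b i) + (b i - b' i)| := by ring_nf
    _ ≤ |m i - b i| + |b i - b' i| := abs_add_le _ _
    _ ≤ R' := by linarith

theorem S_mono {f : (Fin d → ℤ) → ℝ} (hf : ∀ m, 0 ≤ f m) {b b' : Fin d → ℤ} {R R' : ℕ}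
    (h : ∀ i, |b i - b' i| + R ≤ R') : S f b R ≤ S f b' R' :=
  Finset.sum_le_sum_of_subset_of_nonneg (cube_subset h) (fun m _ _ => hf m)

theorem S_nonneg {f : (Fin d → ℤ) → ℝ} (hf : ∀ m, 0 ≤ f m) (b : Fin d → ℤ) (R : ℕ) :
    0 ≤ S f b R := Finset.sum_nonneg fun m _ => hf m

theorem two_pow_lev_le {ρ : (Fin d → ℤ) → ℕ} {b : Fin d → ℤ} (h : 1 ≤ ρ b) :
    2 ^ lev ρ b ≤ ρ b := Nat.pow_log_le_self 2 (by omega)

theorem lt_two_pow_lev {ρ : (Fin d → ℤ) → ℕ} {b : Fin d → ℤ} : ρ b < 2 * 2 ^ lev ρ b := by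
  have := Nat.lt_pow_succ_log_self (b := 2) (by norm_num) (ρ b)
  unfold lev
  rw [pow_succ] at this
  omega

/-- normalised mass -/
noncomputable def mu (f : (Fin d → ℤ) → ℝ) (ρ : (Fin d → ℤ) → ℕ) (b : Fin d → ℤ) : ℝ :=
  S f b (ρ b) / ((2 : ℝ) ^ lev ρ b) ^ d

theorem mu_nonneg {f : (Fin d → ℤ) → ℝ} (hf : ∀ m, 0 ≤ f m) (ρ : (Fin d → ℤ) → ℕ)
    (b : Fin d → ℤ) : 0 ≤ mu f ρ b := div_nonneg (S_nonneg hf _ _) (by positivity)

/-- the level constant -/
noncomputable def c1 (d : ℕ) : ℝ := 1 / (2 * 4 ^ d)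

theorem c1_pos (d : ℕ) : 0 < c1 d := by unfold c1; positivity

/-- the constant in the local inequality -/
noncomputable def Cw (d : ℕ) (β Γ : ℝ) (K : ℕ) : ℝ :=
  (Γ * (K : ℝ) ^ ((d : ℝ) - β)) ^ (1 / (d : ℝ)) * cI d

section local_ineq

variable {β Γ : ℝ} {f : (Fin d → ℤ) → ℝ} {ρ : (Fin d → ℤ) → ℕ} {B : Finset (Fin d → ℤ)}

theorem S_big_le (hd : 1 ≤ d) (hβ1 : β < 1) (hΓ : 1 ≤ Γ) {K : ℕ} (hK2 : 2 ≤ K)
    (hG : Good β Γ f ρ B) {b : Fin d → ℤ} (hb : b ∈ B) :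
    S f b (K * 2 ^ lev ρ b) ≤ Γ * (K : ℝ) ^ ((d : ℝ) - β) * S f b (ρ b) := by
  have hd1 : (1 : ℝ) ≤ d := by exact_mod_cast hd
  have hρ1 := hG.one b hb
  have hlt := lt_two_pow_lev (ρ := ρ) (b := b)
  have hle := two_pow_lev_le hρ1
  have hKρ : ρ b ≤ K * 2 ^ lev ρ b := by nlinarith [Nat.pos_of_ne_zero (pow_ne_zero (lev ρ b) (two_ne_zero (α := ℕ)))]
  refine (hG.opt b hb _ hKρ).trans ?_
  apply mul_le_mul_of_nonneg_right _ (S_nonneg hG.nonneg _ _)
  apply mul_le_mul_of_nonneg_left _ (by linarith)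
  apply Real.rpow_le_rpow (by positivity) _ (by linarith)
  have hρ0 : (0 : ℝ) < ρ b := by exact_mod_cast hρ1
  rw [div_le_iff₀ hρ0]
  push_cast
  have : ((2 : ℝ) ^ lev ρ b) ≤ ρ b := by exact_mod_cast hle
  apply mul_le_mul_of_nonneg_left this (by positivity)

theorem local_bound (hd : 1 ≤ d) (hβ1 : β < 1) (hΓ : 1 ≤ Γ) {K : ℕ} (hK2 : 2 ≤ K)
    (hK : 4 * 2 ^ d * Γ ≤ (K : ℝ) ^ β) (hG : Good β Γ f ρ B) {b : Fin d → ℤ} (hb : b ∈ B)
    {lam : ℝ} (hlam : 0 < lam) (hl : c1 d * mu f ρ b < lam) :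
    (((cube b (ρ b)).filter (fun m => lam < f m)).card : ℝ) / 2 ^ lev ρ b ≤
      Cw d β Γ K * (mu f ρ b / lam) ^ (1 / (d : ℝ)) *
        (bd {m | lam < f m} (cube b (K * 2 ^ lev ρ b))).card := by
  classical
  have hd1 : (1 : ℝ) ≤ d := by exact_mod_cast hd
  have hd0 : (0 : ℝ) < d := by linarith
  set k := lev ρ b with hk
  set Q := cube b (K * 2 ^ k) with hQ
  set E := Q.filter (fun m => lam < f m) with hE
  have hρ1 := hG.one b hb
  have hlt := lt_two_pow_lev (ρ := ρ) (b := b)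
  have hle := two_pow_lev_le hρ1
  have h2k : (0 : ℝ) < 2 ^ k := by positivity
  have hsub : (cube b (ρ b)).filter (fun m => lam < f m) ⊆ E := by
    rw [hE]
    apply Finset.filter_subset_filter
    apply cube_subset
    intro i
    simp only [sub_self, abs_zero, zero_add]
    have : ρ b ≤ K * 2 ^ k := by nlinarith [Nat.pos_of_ne_zero (pow_ne_zero k (two_ne_zero (α := ℕ)))]
    exact_mod_cast this
  have hcard := Finset.card_le_card hsub
  have hcard' : (((cube b (ρ b)).filter (fun m => lam < f m)).card : ℝ) ≤ E.card := by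
    exact_mod_cast hcard
  have hμ0 := mu_nonneg hG.nonneg ρ b
  have hCI := cI_pos hd
  have hCw0 : 0 ≤ Cw d β Γ K := by
    unfold Cw
    have : 0 ≤ Γ * (K : ℝ) ^ ((d : ℝ) - β) := by positivity
    positivity
  rcases E.eq_empty_or_nonempty with hemp | hne
  · have h0 : (((cube b (ρ b)).filter (fun m => lam < f m)).card : ℝ) = 0 := by
      have : ((cube b (ρ b)).filter (fun m => lam < f m)).card = 0 := by
        rw [hemp] at hcard
        simpa using hcard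
      exact_mod_cast this
    rw [h0, zero_div]
    positivity
  · -- size of E
    have hEsum : (E.card : ℝ) * lam ≤ S f b (K * 2 ^ k) := by
      have h1 : (E.card : ℝ) * lam = ∑ _m ∈ E, lam := by simp
      rw [h1]
      refine (Finset.sum_le_sum (fun m hm => ?_)).trans
        (Finset.sum_le_sum_of_subset_of_nonneg (Finset.filter_subset _ _) (fun m _ _ => hG.nonneg m))
      exact (Finset.mem_filter.mp hm).2.le
    have hbig := S_big_le hd hβ1 hΓ hK2 hG hb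
    rw [← hk] at hbig
    have hSμ : S f b (ρ b) = mu f ρ b * (2 ^ k) ^ d := by
      unfold mu
      rw [← hk]
      field_simp
    have hKpos : (0 : ℝ) < K := by
      have : 0 < K := by omega
      exact_mod_cast this
    have hsz : (E.card : ℝ) ≤ Γ * (K : ℝ) ^ ((d : ℝ) - β) * ((2 ^ k) ^ d * (mu f ρ b / lam)) := by
      rw [hSμ] at hbig
      have h2 : (E.card : ℝ) * lam ≤ Γ * (K : ℝ) ^ ((d : ℝ) - β) * (mu f ρ b * (2 ^ k) ^ d) :=
        hEsum.trans hbig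
      have h3 : (E.card : ℝ) ≤ (Γ * (K : ℝ) ^ ((d : ℝ) - β) * (mu f ρ b * (2 ^ k) ^ d)) / lam := by
        rw [le_div_iff₀ hlam]
        exact h2
      refine h3.trans (le_of_eq ?_)
      field_simp
    -- half
    have hhalf : 2 * E.card ≤ Q.card := by
      have hμl : mu f ρ b / lam ≤ 1 / c1 d := by
        rw [div_le_div_iff₀ hlam (c1_pos d)]
        linarith
      have h4 : (2 * E.card : ℝ) ≤ (2 * (K * 2 ^ k)) ^ d := by
        calc (2 * E.card : ℝ) ≤ 2 * (Γ * (K : ℝ) ^ ((d : ℝ) - β) * ((2 ^ k) ^ d * (1 / c1 d))) := by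
              have h5 : Γ * (K : ℝ) ^ ((d : ℝ) - β) * ((2 ^ k) ^ d * (mu f ρ b / lam)) ≤
                  Γ * (K : ℝ) ^ ((d : ℝ) - β) * ((2 ^ k) ^ d * (1 / c1 d)) := by
                gcongr
              linarith
          _ = (4 * 2 ^ d * Γ) * (K : ℝ) ^ ((d : ℝ) - β) * (2 ^ d * (2 ^ k) ^ d) := by
              unfold c1
              have : (4 : ℝ) ^ d = 2 ^ d * 2 ^ d := by
                rw [← mul_pow]; norm_num
              rw [this]
              field_simp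
              ring
          _ ≤ (K : ℝ) ^ β * (K : ℝ) ^ ((d : ℝ) - β) * (2 ^ d * (2 ^ k) ^ d) := by
              gcongr
          _ = (2 * (K * 2 ^ k)) ^ d := by
              rw [← Real.rpow_add hKpos]
              have : β + ((d : ℝ) - β) = (d : ℕ) := by ring
              rw [this, Real.rpow_natCast, mul_pow, mul_pow]
              ring
      have h6 : (2 * E.card : ℝ) ≤ Q.card := by
        rw [hQ, card_cube]
        push_cast
        refine h4.trans ?_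
        gcongr
        linarith
      exact_mod_cast h6
    have hiso := iso hd b (K * 2 ^ k) E (Finset.filter_subset _ _) hne hhalf
    have hbdeq : bd (E : Set (Fin d → ℤ)) Q = bd {m | lam < f m} Q := by
      ext p
      rw [mem_bd, mem_bd]
      constructor
      · rintro ⟨h1, h2, h3⟩
        refine ⟨h1, h2, ?_⟩
        simpa [hE, h1, h2] using h3
      · rintro ⟨h1, h2, h3⟩
        refine ⟨h1, h2, ?_⟩
        simpa [hE, h1, h2] using h3
    rw [hbdeq] at hiso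
    have hE0 : (0 : ℝ) < E.card := by exact_mod_cast hne.card_pos
    have hsplit : (E.card : ℝ) = (E.card : ℝ) ^ (1 / (d : ℝ)) * (E.card : ℝ) ^ (1 - 1 / (d : ℝ)) := by
      rw [← Real.rpow_add hE0]
      simp
    have hroot : (E.card : ℝ) ^ (1 / (d : ℝ)) ≤ (Γ * (K : ℝ) ^ ((d : ℝ) - β)) ^ (1 / (d : ℝ)) *
        (2 ^ k * (mu f ρ b / lam) ^ (1 / (d : ℝ))) := by
      refine (Real.rpow_le_rpow hE0.le hsz (by positivity)).trans (le_of_eq ?_)
      have h20 : ((((2 : ℝ) ^ k) ^ d) ^ (1 / (d : ℝ)) : ℝ) = 2 ^ k := by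
        rw [← Real.rpow_natCast ((2 : ℝ) ^ k) d, ← Real.rpow_mul h2k.le,
          mul_one_div_cancel hd0.ne', Real.rpow_one]
      rw [Real.mul_rpow (by positivity) (by positivity),
        Real.mul_rpow (x := ((2 : ℝ) ^ k) ^ d) (y := mu f ρ b / lam) (by positivity) (by positivity),
        h20]
    rw [div_le_iff₀ h2k]
    refine hcard'.trans ?_
    rw [hsplit]
    calc (E.card : ℝ) ^ (1 / (d : ℝ)) * (E.card : ℝ) ^ (1 - 1 / (d : ℝ))
        ≤ ((Γ * (K : ℝ) ^ ((d : ℝ) - β)) ^ (1 / (d : ℝ)) *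
          (2 ^ k * (mu f ρ b / lam) ^ (1 / (d : ℝ)))) *
          (cI d * (bd {m | lam < f m} Q).card) := by
          have h21 : 0 ≤ mu f ρ b / lam := div_nonneg hμ0 hlam.le
          have h22 : 0 ≤ (Γ * (K : ℝ) ^ ((d : ℝ) - β)) ^ (1 / (d : ℝ)) :=
            Real.rpow_nonneg (mul_nonneg (by linarith) (Real.rpow_nonneg hKpos.le _)) _
          exact mul_le_mul hroot hiso (Real.rpow_nonneg hE0.le _)
            (mul_nonneg h22 (mul_nonneg h2k.le (Real.rpow_nonneg h21 _)))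
      _ = _ := by
          unfold Cw
          ring

/-- masses of overlapping good cubes decay -/
theorem mu_decay (hd : 1 ≤ d) (hβ0 : 0 < β) (hβ1 : β < 1) (hΓ : 1 ≤ Γ) {K : ℕ} (hK2 : 2 ≤ K)
    (hG : Good β Γ f ρ B) {b b' : Fin d → ℤ} (hb : b ∈ B) (hk : lev ρ b ≤ lev ρ b')
    {x : Fin d → ℤ} (hx : x ∈ cube b (K * 2 ^ lev ρ b)) (hx' : x ∈ cube b' (K * 2 ^ lev ρ b')) :
    mu f ρ b' ≤ Γ * (2 + 2 * (K : ℝ)) ^ d * ((2 : ℝ) ^ (-β)) ^ (lev ρ b' - lev ρ b) *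
      mu f ρ b := by
  have hd1 : (1 : ℝ) ≤ d := by exact_mod_cast hd
  set k := lev ρ b with hkdef
  set k' := lev ρ b' with hkdef'
  have hρ1 := hG.one b hb
  have hle := two_pow_lev_le hρ1
  have hlt := lt_two_pow_lev (ρ := ρ) (b := b)
  have hlt' := lt_two_pow_lev (ρ := ρ) (b := b')
  rw [← hkdef] at hle hlt
  rw [← hkdef'] at hlt'
  have hpow : 2 ^ k ≤ 2 ^ k' := Nat.pow_le_pow_right (by norm_num) hk
  set R : ℕ := (2 + 2 * K) * 2 ^ k' with hR
  have hRρ : ρ b ≤ R := by rw [hR]; nlinarith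
  have hS : S f b' (ρ b') ≤ S f b R := by
    apply S_mono hG.nonneg
    intro i
    have h1 := (mem_cube.mp hx) i
    have h2 := (mem_cube.mp hx') i
    have h3 : |b' i - b i| ≤ |x i - b' i| + |x i - b i| := by
      have : b' i - b i = -(x i - b' i) + (x i - b i) := by ring
      rw [this]
      refine (abs_add_le _ _).trans ?_
      rw [abs_neg]
    have h4 : ((K * 2 ^ k : ℕ) : ℤ) + ((K * 2 ^ k' : ℕ) : ℤ) + (ρ b' : ℤ) ≤ (R : ℤ) := by
      have : K * 2 ^ k + K * 2 ^ k' + ρ b' ≤ R := by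
        rw [hR]
        have : K * 2 ^ k ≤ K * 2 ^ k' := Nat.mul_le_mul_left _ hpow
        nlinarith
      exact_mod_cast this
    linarith
  have h5 := hS.trans (hG.opt b hb R hRρ)
  have hρ0 : (0 : ℝ) < ρ b := by exact_mod_cast hρ1
  have hratio : (R : ℝ) / ρ b ≤ (2 + 2 * K) * 2 ^ (k' - k) := by
    rw [div_le_iff₀ hρ0, hR]
    push_cast
    have h6 : ((2 : ℝ) ^ k) ≤ ρ b := by exact_mod_cast hle
    have h7 : (2 : ℝ) ^ k' = 2 ^ (k' - k) * 2 ^ k := by
      rw [← pow_add, Nat.sub_add_cancel hk]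
    rw [h7, mul_assoc]
    gcongr
  have hKK : (1 : ℝ) ≤ 2 + 2 * K := by
    have : (0 : ℝ) ≤ K := Nat.cast_nonneg _
    linarith
  have h8 : ((R : ℝ) / ρ b) ^ ((d : ℝ) - β) ≤
      (2 + 2 * (K : ℝ)) ^ d * ((2 : ℝ) ^ (k' - k)) ^ ((d : ℝ) - β) := by
    refine (Real.rpow_le_rpow (by positivity) hratio (by linarith)).trans ?_
    rw [Real.mul_rpow (by positivity) (by positivity)]
    apply mul_le_mul_of_nonneg_right _ (by positivity)
    rw [← Real.rpow_natCast (2 + 2 * (K : ℝ)) d]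
    exact Real.rpow_le_rpow_of_exponent_le hKK (by linarith)
  have h9 : S f b' (ρ b') ≤ Γ * ((2 + 2 * (K : ℝ)) ^ d * ((2 : ℝ) ^ (k' - k)) ^ ((d : ℝ) - β)) *
      S f b (ρ b) := by
    refine h5.trans ?_
    apply mul_le_mul_of_nonneg_right _ (S_nonneg hG.nonneg _ _)
    exact mul_le_mul_of_nonneg_left h8 (by linarith)
  unfold mu
  rw [← hkdef, ← hkdef']
  have h10 : (2 : ℝ) ^ k' = 2 ^ (k' - k) * 2 ^ k := by
    rw [← pow_add, Nat.sub_add_cancel hk]
  have h11 : ((2 : ℝ) ^ (k' - k)) ^ ((d : ℝ) - β) =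
      ((2 : ℝ) ^ (k' - k)) ^ d * ((2 : ℝ) ^ (-β)) ^ (k' - k) := by
    rw [sub_eq_add_neg, Real.rpow_add (by positivity), Real.rpow_natCast]
    congr 1
    rw [← Real.rpow_natCast, ← Real.rpow_natCast, ← Real.rpow_mul (by norm_num),
      ← Real.rpow_mul (by norm_num), mul_comm]
  rw [div_le_iff₀ (by positivity)]
  refine h9.trans (le_of_eq ?_)
  rw [h11, h10, mul_pow]
  field_simp

end local_ineq

end Pool.Agent.Helper383.FM
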