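import Pool.Agent.Helper383.FM.Max2

/-!
# The gradient bound for admissible families
-/

set_option autoImplicit false

open Finset

namespace Pool.Agent.Helper383.FM

variable {d : ℕ}

/-- the Euclidean norm of the discrete gradient -/
noncomputable def gr (g : (Fin d → ℤ) → ℝ) (n : Fin d → ℤ) : ℝ :=
  Real.sqrt (∑ i, (g (n + e i) - g n) ^ 2)

theorem gr_nonneg (g : (Fin d → ℤ) → ℝ) (n : Fin d → ℤ) : 0 ≤ gr g n := Real.sqrt_nonneg _

theorem gr_le (g : (Fin d → ℤ) → ℝ) (n : Fin d → ℤ) : gr g n ≤ ∑ i, |g (n + e i) - g n| := by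
  unfold gr
  have h0 : 0 ≤ ∑ i, |g (n + e i) - g n| := Finset.sum_nonneg fun i _ => abs_nonneg _
  rw [Real.sqrt_le_left h0]
  calc ∑ i, (g (n + e i) - g n) ^ 2 = ∑ i, |g (n + e i) - g n| * |g (n + e i) - g n| := by
        refine Finset.sum_congr rfl fun i _ => ?_
        rw [← abs_mul, ← sq, abs_of_nonneg (sq_nonneg _)]
    _ ≤ ∑ i, |g (n + e i) - g n| * ∑ j, |g (n + e j) - g n| := by
        refine Finset.sum_le_sum fun i _ => ?_
        apply mul_le_mul_of_nonneg_left _ (abs_nonneg _)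
        exact Finset.single_le_sum (f := fun j => |g (n + e j) - g n|)
          (fun j _ => abs_nonneg _) (Finset.mem_univ i)
    _ = (∑ j, |g (n + e j) - g n|) ^ 2 := by
        rw [← Finset.sum_mul, sq]

theorem le_gr (g : (Fin d → ℤ) → ℝ) (n : Fin d → ℤ) (i : Fin d) : |g (n + e i) - g n| ≤ gr g n := by
  unfold gr
  apply Real.abs_le_sqrt
  exact Finset.single_le_sum (f := fun j => (g (n + e j) - g n) ^ 2)
    (fun j _ => sq_nonneg _) (Finset.mem_univ i)

theorem summable_shift {f : (Fin d → ℤ) → ℝ} (hf : Summable fun n => |f n|) (v : Fin d → ℤ) :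
    Summable (fun n => |f (n + v)|) ∧ ∑' n, |f (n + v)| = ∑' n, |f n| := by
  constructor
  · exact (Equiv.addRight v).summable_iff (f := fun n => |f n|) |>.mpr hf
  · exact (Equiv.addRight v).tsum_eq (fun n => |f n|)

theorem gr_summable {f : (Fin d → ℤ) → ℝ} (hf : Summable fun n => |f n|) :
    Summable (gr f) ∧ ∑' n, gr f n ≤ 2 * d * ∑' n, |f n| := by
  have h1 : Summable (fun n => ∑ i : Fin d, (|f (n + e i)| + |f n|)) := by
    apply summable_sum
    intro i _
    exact (summable_shift hf (e i)).1.add hf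
  have h2 : ∀ n, gr f n ≤ ∑ i : Fin d, (|f (n + e i)| + |f n|) := by
    intro n
    refine (gr_le f n).trans ?_
    refine Finset.sum_le_sum fun i _ => ?_
    exact abs_sub _ _
  have h3 : Summable (gr f) := Summable.of_nonneg_of_le (gr_nonneg f) h2 h1
  refine ⟨h3, ?_⟩
  refine (h3.tsum_le_tsum h2 h1).trans ?_
  rw [Summable.tsum_finsetSum (fun i _ => (summable_shift hf (e i)).1.add hf)]
  apply le_of_eq
  calc ∑ i : Fin d, ∑' n, (|f (n + e i)| + |f n|) = ∑ _i : Fin d, (2 * ∑' n, |f n|) := by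
        refine Finset.sum_congr rfl fun i _ => ?_
        rw [(summable_shift hf (e i)).1.tsum_add hf, (summable_shift hf (e i)).2]
        ring
    _ = _ := by
        rw [Finset.sum_const, Finset.card_univ, Fintype.card_fin, nsmul_eq_mul]
        ring

theorem edge_sum {f : (Fin d → ℤ) → ℝ} (hf : Summable fun n => |f n|)
    (Z : Finset ((Fin d → ℤ) × Fin d)) :
    ∑ p ∈ Z, |(|f (p.1 + e p.2)| - |f p.1|)| ≤ d * ∑' n, gr f n := by
  classical
  obtain ⟨h1, _⟩ := gr_summable hf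
  have hsub : Z ⊆ (Z.image Prod.fst) ×ˢ (univ : Finset (Fin d)) := by
    intro p hp
    rw [Finset.mem_product]
    exact ⟨Finset.mem_image_of_mem _ hp, Finset.mem_univ _⟩
  have h2 : ∀ p ∈ Z, |(|f (p.1 + e p.2)| - |f p.1|)| ≤ gr f p.1 := by
    intro p _
    have h3 := abs_abs_sub_abs_le (f (p.1 + e p.2)) (f p.1)
    exact h3.trans (le_gr f p.1 p.2)
  calc ∑ p ∈ Z, |(|f (p.1 + e p.2)| - |f p.1|)| ≤ ∑ p ∈ Z, gr f p.1 := Finset.sum_le_sum h2
    _ ≤ ∑ p ∈ (Z.image Prod.fst) ×ˢ (univ : Finset (Fin d)), gr f p.1 :=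
        Finset.sum_le_sum_of_subset_of_nonneg hsub (fun p _ _ => gr_nonneg _ _)
    _ = d * ∑ n ∈ Z.image Prod.fst, gr f n := by
        rw [Finset.sum_product]
        simp only [Finset.sum_const, Finset.card_univ, Fintype.card_fin, nsmul_eq_mul]
        rw [Finset.mul_sum]
    _ ≤ _ := by
        apply mul_le_mul_of_nonneg_left _ (Nat.cast_nonneg _)
        exact h1.sum_le_tsum _ (fun n _ => gr_nonneg _ _)

theorem edge_sum_pos {f : (Fin d → ℤ) → ℝ} (hf : Summable fun n => |f n|) (i : Fin d)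
    (Z : Finset (Fin d → ℤ)) :
    ∑ m ∈ Z, |(|f m| - |f (m + e i)|)| ≤ d * ∑' n, gr f n := by
  have h := edge_sum hf (Z ×ˢ {i})
  rw [Finset.sum_product] at h
  simp only [Finset.sum_singleton] at h
  refine le_trans (le_of_eq ?_) h
  refine Finset.sum_congr rfl fun m _ => ?_
  exact abs_sub_comm _ _

theorem edge_sum_neg {f : (Fin d → ℤ) → ℝ} (hf : Summable fun n => |f n|) (i : Fin d)
    (Z : Finset (Fin d → ℤ)) :
    ∑ m ∈ Z, |(|f m| - |f (m + -e i)|)| ≤ d * ∑' n, gr f n := by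
  classical
  have h := edge_sum_pos hf i (Z.image (fun m => m + -e i))
  rw [Finset.sum_image ((add_left_injective (-e i)).injOn)] at h
  refine le_trans (le_of_eq ?_) h
  refine Finset.sum_congr rfl fun m _ => ?_
  rw [neg_add_cancel_right, abs_sub_comm]

theorem abs_e_le (i j : Fin d) : |e i j| ≤ 1 := by
  unfold e
  by_cases h : j = i
  · subst h; simp
  · rw [Pi.single_eq_of_ne h]; simp

/-- the final constant -/
noncomputable def CF (d : ℕ) (V c0 C0 β α : ℝ) : ℝ :=
  2 * d * (CD d V c0 C0 β α (2 * d * d) * (d : ℝ) ^ (1 - α))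

theorem main {K : Set (Fin d → ℝ)} {c0 C0 : ℝ} {A : (Fin d → ℤ) → Set ((Fin d → ℝ) × ℝ)}
    {β : ℝ} {f : (Fin d → ℤ) → ℝ} {M : (Fin d → ℤ) → ℝ} (hd : 1 ≤ d) (hK : Body K c0 C0)
    (hA : Adm K c0 A) (hβ0 : 0 < β) (hβ1 : β < 1) (hf : Summable fun n => |f n|)
    (hM : ∀ n, IsLUB ((fun p => avg K β f p.1 p.2) '' A n) (M n))
    {α : ℝ} (hα0 : 0 ≤ α) (hαβ : α ≤ β) {q : ℝ} (hq : q = d / (d - β + α)) :
    Summable (fun n => gr M n ^ q) ∧ (∑' n, gr M n ^ q) ^ (1 / q) ≤
      CF d (MeasureTheory.volume K).toReal c0 C0 β α *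
        ((∑' n, gr f n) ^ (1 - α) * (∑' n, |f n|) ^ α) := by
  classical
  have hd1 : (1 : ℝ) ≤ d := by exact_mod_cast hd
  have hd0 : (0 : ℝ) < d := by linarith
  have hα1 : α < 1 := by linarith
  have hden : 0 < (d : ℝ) - β + α := by linarith
  have hq1 : 1 ≤ q := by
    rw [hq, le_div_iff₀ hden]; linarith
  have hq0 : 0 < q := by linarith
  have hc := hK.c0pos
  have hC0 : 0 < C0 := lt_of_lt_of_le hc hK.c0le
  obtain ⟨hgs, hgle⟩ := gr_summable hf
  set G' := ∑' n, gr f n with hG'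
  set F := ∑' n, |f n| with hF
  have hG'0 : 0 ≤ G' := tsum_nonneg (gr_nonneg f)
  have hF0 : 0 ≤ F := tsum_nonneg fun _ => abs_nonneg _
  have hFF : ∀ Z : Finset (Fin d → ℤ), ∑ m ∈ Z, |f m| ≤ F := fun Z =>
    hf.sum_le_tsum Z (fun _ _ => abs_nonneg _)
  have hGF : (d : ℝ) * G' ≤ (2 * d * d) * F := by
    calc (d : ℝ) * G' ≤ d * (2 * d * F) := mul_le_mul_of_nonneg_left hgle hd0.le
      _ = _ := by ring
  have hV := volume_body_pos hK
  set V := (MeasureTheory.volume K).toReal with hVd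
  have ha : (0 : ℝ) ≤ 2 * d * d := by positivity
  have hΓ := CG_one hd hK hβ1
  have hCS := CS_nonneg hd hβ0 hΓ hα0 hα1
  have hCL := CL_nonneg d (β := β) hV hc hC0
  have hCD : 0 ≤ CD d V c0 C0 β α (2 * d * d) := by
    unfold CD
    positivity
  set Y := CD d V c0 C0 β α (2 * d * d) * ((d * G') ^ (1 - α) * F ^ α) with hY
  have hY0 : 0 ≤ Y := by positivity
  have hpos : ∀ (i : Fin d) (Z : Finset (Fin d → ℤ)),
      ∑ n ∈ Z, (max (M n - M (n + e i)) 0) ^ q ≤ Y ^ q := by
    intro i Z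
    exact dir_sum hd hK hA hβ0 hβ1 hM (v := e i) (fun j => by exact_mod_cast abs_e_le i j) ha
      (edge_sum_pos hf i) (edge_sum hf) hFF hGF hα0 hαβ hq Z
  have hneg : ∀ (i : Fin d) (Z : Finset (Fin d → ℤ)),
      ∑ n ∈ Z, (max (M n - M (n + -e i)) 0) ^ q ≤ Y ^ q := by
    intro i Z
    exact dir_sum hd hK hA hβ0 hβ1 hM (v := -e i) (fun j => by
      rw [Pi.neg_apply, abs_neg]; exact abs_e_le i j) ha
      (edge_sum_neg hf i) (edge_sum hf) hFF hGF hα0 hαβ hq Z
  have hpt : ∀ n, gr M n ^ q ≤ (d : ℝ) ^ (q - 1) *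
      ∑ i, ((max (M n - M (n + e i)) 0) ^ q + (max (M (n + e i) - M n) 0) ^ q) := by
    intro n
    have h1 := Real.rpow_sum_le_const_mul_sum_rpow (univ : Finset (Fin d))
      (fun i => M (n + e i) - M n) hq1
    rw [Finset.card_univ, Fintype.card_fin] at h1
    refine (Real.rpow_le_rpow (gr_nonneg _ _) (gr_le M n) hq0.le).trans (h1.trans ?_)
    apply mul_le_mul_of_nonneg_left _ (by positivity)
    refine Finset.sum_le_sum fun i _ => ?_
    have hz : (0 : ℝ) ^ q = 0 := Real.zero_rpow hq0.ne'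
    rcases le_total (M (n + e i)) (M n) with h | h
    · rw [abs_of_nonpos (by linarith), max_eq_left (by linarith : 0 ≤ M n - M (n + e i)),
        max_eq_right (by linarith : M (n + e i) - M n ≤ 0), hz, neg_sub, add_zero]
    · rw [abs_of_nonneg (by linarith), max_eq_right (by linarith : M n - M (n + e i) ≤ 0),
        max_eq_left (by linarith : 0 ≤ M (n + e i) - M n), hz, zero_add]
  have hfin : ∀ Z : Finset (Fin d → ℤ), ∑ n ∈ Z, gr M n ^ q ≤ (2 * d * Y) ^ q := by
    intro Z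
    calc ∑ n ∈ Z, gr M n ^ q ≤ ∑ n ∈ Z, ((d : ℝ) ^ (q - 1) *
          ∑ i, ((max (M n - M (n + e i)) 0) ^ q + (max (M (n + e i) - M n) 0) ^ q)) :=
          Finset.sum_le_sum fun n _ => hpt n
      _ = (d : ℝ) ^ (q - 1) * ∑ i, (∑ n ∈ Z, (max (M n - M (n + e i)) 0) ^ q +
            ∑ n ∈ Z, (max (M (n + e i) - M n) 0) ^ q) := by
          rw [← Finset.mul_sum, Finset.sum_comm]
          congr 1
          refine Finset.sum_congr rfl fun i _ => ?_
          rw [Finset.sum_add_distrib]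
      _ ≤ (d : ℝ) ^ (q - 1) * ∑ _i : Fin d, (Y ^ q + Y ^ q) := by
          apply mul_le_mul_of_nonneg_left _ (by positivity)
          refine Finset.sum_le_sum fun i _ => ?_
          apply add_le_add (hpos i Z)
          have h2 := hneg i (Z.image (fun n => n + e i))
          rw [Finset.sum_image ((add_left_injective (e i)).injOn)] at h2
          refine le_trans (le_of_eq ?_) h2
          refine Finset.sum_congr rfl fun n _ => ?_
          rw [add_neg_cancel_right]
      _ = 2 * (d : ℝ) ^ q * Y ^ q := by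
          rw [Finset.sum_const, Finset.card_univ, Fintype.card_fin, nsmul_eq_mul]
          have h3 : (d : ℝ) ^ q = (d : ℝ) ^ (q - 1) * d := by
            have h4 := Real.rpow_add hd0 (q - 1) 1
            rw [Real.rpow_one] at h4
            rw [← h4]; congr 1; ring
          rw [h3]
          ring
      _ ≤ 2 ^ q * (d : ℝ) ^ q * Y ^ q := by
          apply mul_le_mul_of_nonneg_right _ (by positivity)
          apply mul_le_mul_of_nonneg_right _ (by positivity)
          calc (2 : ℝ) = 2 ^ (1 : ℝ) := (Real.rpow_one _).symm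
            _ ≤ 2 ^ q := Real.rpow_le_rpow_of_exponent_le (by norm_num) hq1
      _ = (2 * d * Y) ^ q := by
          rw [Real.mul_rpow (by positivity) hY0, Real.mul_rpow (by norm_num) hd0.le]
  have hnn : ∀ n, 0 ≤ gr M n ^ q := fun n => Real.rpow_nonneg (gr_nonneg _ _) _
  refine ⟨summable_of_sum_le hnn hfin, ?_⟩
  have ht : ∑' n, gr M n ^ q ≤ (2 * d * Y) ^ q := Real.tsum_le_of_sum_le hnn hfin
  calc (∑' n, gr M n ^ q) ^ (1 / q) ≤ ((2 * d * Y) ^ q) ^ (1 / q) :=
        Real.rpow_le_rpow (tsum_nonneg hnn) ht (by positivity)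
    _ = 2 * d * Y := by
        rw [← Real.rpow_mul (by positivity), mul_one_div_cancel hq0.ne', Real.rpow_one]
    _ = _ := by
        unfold CF
        rw [hY, Real.mul_rpow hd0.le hG'0]
        ring

end Pool.Agent.Helper383.FM
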