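import Mathlib

/-!
# A relative isoperimetric inequality in cubes of `ℤ^d`
-/

set_option autoImplicit false

open MeasureTheory Finset

open scoped ENNReal

namespace Pool.Agent.Helper383.FM

variable {d : ℕ}

/-- the cube with centre `b` and radius `R` -/
noncomputable def cube (b : Fin d → ℤ) (R : ℕ) : Finset (Fin d → ℤ) :=
  Finset.Icc (fun i => b i - R) (fun i => b i + R)

theorem mem_cube {b : Fin d → ℤ} {R : ℕ} {m : Fin d → ℤ} :
    m ∈ cube b R ↔ ∀ i, |m i - b i| ≤ R := by
  unfold cube
  rw [Finset.mem_Icc, Pi.le_def, Pi.le_def]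
  constructor
  · rintro ⟨h1, h2⟩ i
    rw [abs_le]
    have := h1 i
    have := h2 i
    constructor <;> linarith
  · intro h
    constructor <;> intro i <;> have := abs_le.mp (h i) <;> linarith [this.1, this.2]

theorem card_cube (b : Fin d → ℤ) (R : ℕ) : (cube b R).card = (2 * R + 1) ^ d := by
  unfold cube
  rw [Pi.card_Icc]
  have : ∀ i : Fin d, (Finset.Icc (b i - R) (b i + R)).card = 2 * R + 1 := by
    intro i
    rw [Int.card_Icc]
    omega
  rw [Finset.prod_congr rfl (fun i _ => this i)]
  simp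

/-- the unit vector -/
def e (i : Fin d) : Fin d → ℤ := Pi.single i 1

/-- the edges inside `Q` which connect `E` with its complement -/
noncomputable def bd (E : Set (Fin d → ℤ)) (Q : Finset (Fin d → ℤ)) :
    Finset ((Fin d → ℤ) × Fin d) := by
  classical
  exact (Q ×ˢ Finset.univ).filter
    (fun p => p.1 + e p.2 ∈ Q ∧ ¬ (p.1 ∈ E ↔ p.1 + e p.2 ∈ E))

theorem mem_bd {E : Set (Fin d → ℤ)} {Q : Finset (Fin d → ℤ)} {p : (Fin d → ℤ) × Fin d} :
    p ∈ bd E Q ↔ p.1 ∈ Q ∧ p.1 + e p.2 ∈ Q ∧ ¬ (p.1 ∈ E ↔ p.1 + e p.2 ∈ E) := by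
  classical
  unfold bd
  simp

theorem pi_count : Measure.pi (fun _ : Fin d => (Measure.count : Measure ℤ)) = Measure.count := by
  refine Measure.ext_of_singleton fun a => ?_
  rw [Measure.count_singleton, ← Set.univ_pi_singleton, Measure.pi_pi]
  simp

/-- moving on a line of the cube from a point of `E` to a point outside `E` one meets an edge -/
theorem exists_edge (E : Set (Fin d → ℤ)) (b : Fin d → ℤ) (R : ℕ) (x : Fin d → ℤ) (i : Fin d)
    (hx : x ∈ cube b R) (hxE : x ∈ E) (t : ℤ) (ht : |t - b i| ≤ R)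
    (htE : Function.update x i t ∉ E) :
    ∃ s : ℤ, (Function.update x i s, i) ∈ bd E (cube b R) := by
  classical
  have hupd : ∀ s : ℤ, |s - b i| ≤ R → Function.update x i s ∈ cube b R := by
    intro s hs
    rw [mem_cube] at hx ⊢
    intro j
    by_cases hj : j = i
    · subst hj; simpa using hs
    · simpa [Function.update_of_ne hj] using hx j
  have hstep : ∀ s : ℤ, Function.update x i s + e i = Function.update x i (s + 1) := by
    intro s
    funext j
    by_cases hj : j = i
    · subst hj; simp [e]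
    · simp [e, Function.update_of_ne hj, Pi.single_eq_of_ne hj]
  have hxi : Function.update x i (x i) = x := Function.update_eq_self i x
  have hxb : |x i - b i| ≤ R := (mem_cube.mp hx) i
  -- walk
  by_contra hcon
  push Not at hcon
  have key : ∀ s : ℤ, |s - b i| ≤ R → |s + 1 - b i| ≤ R →
      (Function.update x i s ∈ E ↔ Function.update x i (s + 1) ∈ E) := by
    intro s hs hs1
    by_contra hne
    apply hcon s
    rw [mem_bd]
    refine ⟨hupd s hs, ?_, ?_⟩
    · simp only [hstep]
      exact hupd _ hs1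
    · simp only [hstep]
      exact hne
  have up : ∀ k : ℕ, ∀ s : ℤ, |s - b i| ≤ R → |s + k - b i| ≤ R →
      (Function.update x i s ∈ E ↔ Function.update x i (s + k) ∈ E) := by
    intro k
    induction k with
    | zero => intro s _ _; simp
    | succ k ih =>
      intro s hs hk
      have hk' : |s + k - b i| ≤ R := by
        rw [abs_le] at hs hk ⊢
        push_cast at hk
        constructor <;> linarith [hs.1, hk.2]
      have h1 := ih s hs hk'
      have h2 := key (s + k) hk' (by push_cast at hk; rw [add_assoc] at *; exact hk)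
      rw [h1, h2]
      push_cast
      rw [add_assoc]
  rcases le_total (x i) t with h | h
  · obtain ⟨k, hk⟩ := Int.eq_ofNat_of_zero_le (sub_nonneg.mpr h)
    have h3 := up k (x i) hxb (by
      have : x i + k = t := by linarith
      rw [this]; exact ht)
    have h4 : x i + k = t := by linarith
    rw [h4, hxi] at h3
    exact htE (h3.mp hxE)
  · obtain ⟨k, hk⟩ := Int.eq_ofNat_of_zero_le (sub_nonneg.mpr h)
    have h4 : t + k = x i := by linarith
    have h3 := up k t ht (by rw [h4]; exact hxb)
    rw [h4, hxi] at h3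
    exact htE (h3.mpr hxE)

/-- counting measure on `ℤ^d` -/
theorem lintegral_pi_count (F : (Fin d → ℤ) → ℝ≥0∞) :
    ∫⁻ x, F x ∂(Measure.pi (fun _ : Fin d => (Measure.count : Measure ℤ))) = ∑' x, F x := by
  rw [pi_count, lintegral_count]

theorem iso_ge_two (hd : 2 ≤ d) (b : Fin d → ℤ) (R : ℕ) (E : Finset (Fin d → ℤ))
    (hE : E ⊆ cube b R) :
    (E.card : ℝ) ≤ ((E.card : ℝ) / (2 * R + 1) + (bd (E : Set _) (cube b R)).card) ^
      ((d : ℝ) / (d - 1)) := by
  classical
  have hd1 : (1 : ℝ) < d := by exact_mod_cast (by omega : 1 < d)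
  set p : ℝ := (d : ℝ) / (d - 1) with hp
  have hconj : Real.HolderConjugate (Fintype.card (Fin d)) p := by
    rw [Fintype.card_fin]
    exact Real.HolderConjugate.conjExponent hd1
  set L : ℝ≥0∞ := ((2 * R + 1 : ℕ) : ℝ≥0∞) with hL
  have hL0 : L ≠ 0 := by simp [hL]
  have hLt : L ≠ ∞ := ENNReal.natCast_ne_top _
  let F : (Fin d → ℤ) → ℝ≥0∞ := fun y => (if y ∈ E then L⁻¹ else 0) +
    ∑ j : Fin d, if (y, j) ∈ bd (E : Set _) (cube b R) then 1 else 0
  have hFm : Measurable F := measurable_of_countable F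
  have main := lintegral_prod_lintegral_pow_le (fun _ : Fin d => (Measure.count : Measure ℤ))
    hconj hFm
  have hFsum : ∑' y, F y = (E.card : ℝ≥0∞) * L⁻¹ + (bd (E : Set _) (cube b R)).card := by
    simp only [F]
    rw [ENNReal.tsum_add]
    congr 1
    · rw [tsum_eq_sum (s := E) (fun y hy => by simp [hy])]
      rw [Finset.sum_congr rfl (fun y hy => by rw [if_pos hy])]
      simp
    · rw [tsum_eq_sum (s := cube b R)]
      · rw [← Finset.sum_product']
        rw [← Finset.sum_filter]
        rw [Finset.sum_const, nsmul_eq_mul, mul_one]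
        congr 2
        ext q
        simp only [Finset.mem_filter, Finset.mem_product, Finset.mem_univ, and_true]
        constructor
        · rintro ⟨_, h⟩; exact h
        · intro h; exact ⟨(mem_bd.mp h).1, h⟩
      · intro y hy
        refine Finset.sum_eq_zero fun j _ => ?_
        rw [if_neg]
        intro h
        exact hy (mem_bd.mp h).1
  have hlow : (E.card : ℝ≥0∞) ≤ ∫⁻ x, ∏ i, (∫⁻ xᵢ, F (Function.update x i xᵢ) ∂Measure.count) ^
      ((1 : ℝ) / ((Fintype.card (Fin d) : ℝ) - 1))
      ∂(Measure.pi (fun _ : Fin d => (Measure.count : Measure ℤ))) := by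
    rw [lintegral_pi_count]
    have h1 : (E.card : ℝ≥0∞) = ∑ x ∈ E, (1 : ℝ≥0∞) := by simp
    rw [h1]
    refine le_trans (Finset.sum_le_sum fun x hx => ?_) (ENNReal.sum_le_tsum E)
    have hline : ∀ i : Fin d, 1 ≤ ∫⁻ xᵢ, F (Function.update x i xᵢ) ∂Measure.count := by
      intro i
      rw [lintegral_count]
      by_cases hall : ∀ t : ℤ, |t - b i| ≤ R → Function.update x i t ∈ E
      · have h2 : (∑ t ∈ Finset.Icc (b i - R) (b i + R), L⁻¹) ≤
            ∑ t ∈ Finset.Icc (b i - R) (b i + R), F (Function.update x i t) := by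
          refine Finset.sum_le_sum fun t ht => ?_
          have : Function.update x i t ∈ E := by
            apply hall
            rw [Finset.mem_Icc] at ht
            rw [abs_le]
            constructor <;> linarith [ht.1, ht.2]
          simp only [F, if_pos this]
          exact le_self_add
        refine le_trans ?_ (h2.trans (ENNReal.sum_le_tsum _))
        rw [Finset.sum_const, nsmul_eq_mul, Int.card_Icc]
        have : (b i + R + 1 - (b i - R)).toNat = 2 * R + 1 := by omega
        rw [this, ← hL, ENNReal.mul_inv_cancel hL0 hLt]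
      · push Not at hall
        obtain ⟨t, ht, htE⟩ := hall
        obtain ⟨s, hs⟩ := exists_edge (E : Set _) b R x i (hE hx) (by exact_mod_cast hx) t ht
          (by exact_mod_cast htE)
        refine le_trans ?_ (ENNReal.le_tsum s)
        simp only [F]
        refine le_trans ?_ le_add_self
        refine le_trans ?_ (Finset.single_le_sum (fun _ _ => zero_le) (Finset.mem_univ i))
        rw [if_pos hs]
    calc (1 : ℝ≥0∞) = ∏ _i : Fin d, 1 := by simp
      _ ≤ _ := by
        refine Finset.prod_le_prod' fun i _ => ?_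
        refine ENNReal.one_le_rpow (hline i) ?_
        rw [Fintype.card_fin]
        apply div_pos one_pos
        linarith
  have hfin : (E.card : ℝ≥0∞) ≤ ((E.card : ℝ≥0∞) * L⁻¹ + (bd (E : Set _) (cube b R)).card) ^ p := by
    refine hlow.trans (main.trans ?_)
    rw [lintegral_pi_count, hFsum]
  have hp0 : 0 ≤ p := div_nonneg (by linarith) (by linarith)
  have hLr : L⁻¹ = ENNReal.ofReal ((2 * R + 1 : ℝ)⁻¹) := by
    rw [ENNReal.ofReal_inv_of_pos (by positivity), hL]
    congr 1
    rw [show (2 * (R : ℝ) + 1) = ((2 * R + 1 : ℕ) : ℝ) by push_cast; ring, ENNReal.ofReal_natCast]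
  have hconv : ((E.card : ℝ≥0∞) * L⁻¹ + (bd (E : Set _) (cube b R)).card) =
      ENNReal.ofReal ((E.card : ℝ) / (2 * R + 1) + (bd (E : Set _) (cube b R)).card) := by
    rw [ENNReal.ofReal_add (by positivity) (by positivity), div_eq_mul_inv,
      ENNReal.ofReal_mul (by positivity), ENNReal.ofReal_natCast, ENNReal.ofReal_natCast, hLr]
  rw [hconv, ENNReal.ofReal_rpow_of_nonneg (by positivity) hp0,
    ← ENNReal.ofReal_natCast (E.card)] at hfin
  exact (ENNReal.ofReal_le_ofReal_iff (by positivity)).mp hfin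

/-- the constant in the isoperimetric inequality -/
noncomputable def cI (d : ℕ) : ℝ := (1 - (2 : ℝ) ^ (-(1 / (d : ℝ))))⁻¹

theorem cI_aux (hd : 1 ≤ d) : 0 < 1 - (2 : ℝ) ^ (-(1 / (d : ℝ))) := by
  have hd0 : (0 : ℝ) < d := by exact_mod_cast hd
  have : (2 : ℝ) ^ (-(1 / (d : ℝ))) < 1 := by
    apply Real.rpow_lt_one_of_one_lt_of_neg (by norm_num)
    have : 0 < 1 / (d : ℝ) := by positivity
    linarith
  linarith

theorem cI_pos (hd : 1 ≤ d) : 0 < cI d := inv_pos.mpr (cI_aux hd)

theorem iso (hd : 1 ≤ d) (b : Fin d → ℤ) (R : ℕ) (E : Finset (Fin d → ℤ))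
    (hE : E ⊆ cube b R) (hne : E.Nonempty) (hhalf : 2 * E.card ≤ (cube b R).card) :
    (E.card : ℝ) ^ (1 - 1 / (d : ℝ)) ≤ cI d * (bd (E : Set _) (cube b R)).card := by
  classical
  have hd0 : (0 : ℝ) < d := by exact_mod_cast hd
  have hE0 : (0 : ℝ) < E.card := by exact_mod_cast hne.card_pos
  have haux := cI_aux hd
  rcases Nat.lt_or_ge d 2 with h2 | h2
  · -- dimension one
    have hd1 : d = 1 := by omega
    subst hd1
    have h0 : (1 : ℝ) - 1 / ((1 : ℕ) : ℝ) = 0 := by norm_num
    rw [h0, Real.rpow_zero]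
    have hlt : E.card < (cube b R).card := by
      have := hne.card_pos
      omega
    obtain ⟨y, hyQ, hyE⟩ : ∃ y ∈ cube b R, y ∉ E := by
      by_contra hcon
      push Not at hcon
      exact absurd (Finset.card_le_card hcon) (not_le.mpr hlt)
    obtain ⟨x, hx⟩ := hne
    have hupd : Function.update x 0 (y 0) = y := by
      funext j
      have : j = 0 := Subsingleton.elim _ _
      subst this
      simp
    obtain ⟨s, hs⟩ := exists_edge (E : Set _) b R x 0 (hE hx) (by exact_mod_cast hx) (y 0)
      ((mem_cube.mp hyQ) 0) (by rw [hupd]; exact_mod_cast hyE)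
    have hcard : 1 ≤ (bd (E : Set _) (cube b R)).card := Finset.card_pos.mpr ⟨_, hs⟩
    have hcard' : (1 : ℝ) ≤ (bd (E : Set _) (cube b R)).card := by exact_mod_cast hcard
    have hc1 : 1 ≤ cI 1 := by
      unfold cI
      rw [one_le_inv₀ haux]
      have : 0 ≤ (2 : ℝ) ^ (-(1 / ((1 : ℕ) : ℝ))) := by positivity
      linarith
    calc (1 : ℝ) = 1 * 1 := by ring
      _ ≤ _ := mul_le_mul hc1 hcard' (by norm_num) (by linarith)
  · have hd1 : (1 : ℝ) < d := by exact_mod_cast (by omega : 1 < d)
    have main := iso_ge_two h2 b R E hE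
    set B : ℝ := ((bd (E : Set _) (cube b R)).card : ℝ) with hB
    have hB0 : 0 ≤ B := Nat.cast_nonneg _
    set L : ℝ := 2 * R + 1 with hL
    have hL0 : 0 < L := by positivity
    set κ : ℝ := 1 - 1 / (d : ℝ) with hκ
    have hκ0 : 0 < κ := by
      rw [hκ]
      have : 1 / (d : ℝ) < 1 := by rw [div_lt_one hd0]; exact hd1
      linarith
    have h3 : (E.card : ℝ) ^ κ ≤ E.card / L + B := by
      have h4 := Real.rpow_le_rpow hE0.le main hκ0.le
      rw [← Real.rpow_mul (by positivity)] at h4
      have h5 : (d : ℝ) / (d - 1) * κ = 1 := by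
        rw [hκ]
        have : (d : ℝ) - 1 ≠ 0 := by linarith
        field_simp
      rwa [h5, Real.rpow_one] at h4
    have h6 : (E.card : ℝ) / L ≤ (E.card : ℝ) ^ κ * (2 : ℝ) ^ (-(1 / (d : ℝ))) := by
      have h7 : (E.card : ℝ) = (E.card : ℝ) ^ κ * (E.card : ℝ) ^ (1 / (d : ℝ)) := by
        rw [← Real.rpow_add hE0, hκ]
        simp
      have h8 : (E.card : ℝ) ≤ L ^ d / 2 := by
        have h9 : (2 * E.card : ℝ) ≤ L ^ d := by
          rw [card_cube] at hhalf
          rw [hL]
          exact_mod_cast hhalf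
        linarith
      have h10 : (E.card : ℝ) ^ (1 / (d : ℝ)) ≤ L * (2 : ℝ) ^ (-(1 / (d : ℝ))) := by
        calc (E.card : ℝ) ^ (1 / (d : ℝ)) ≤ (L ^ d / 2) ^ (1 / (d : ℝ)) :=
              Real.rpow_le_rpow hE0.le h8 (by positivity)
          _ = L * (2 : ℝ) ^ (-(1 / (d : ℝ))) := by
              rw [Real.div_rpow (by positivity) (by norm_num), ← Real.rpow_natCast,
                ← Real.rpow_mul hL0.le, mul_one_div_cancel hd0.ne', Real.rpow_one,
                Real.rpow_neg (by norm_num)]
              rfl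
      have h12 : (E.card : ℝ) / L = (E.card : ℝ) ^ κ * ((E.card : ℝ) ^ (1 / (d : ℝ)) / L) := by
        rw [← mul_div_assoc, ← h7]
      rw [h12]
      apply mul_le_mul_of_nonneg_left _ (Real.rpow_nonneg hE0.le _)
      rw [div_le_iff₀ hL0]
      linarith
    have h11 : (E.card : ℝ) ^ κ * (1 - (2 : ℝ) ^ (-(1 / (d : ℝ)))) ≤ B := by
      rw [mul_sub, mul_one]
      linarith
    unfold cI
    rw [inv_mul_eq_div, le_div_iff₀ haux]
    exact h11

end Pool.Agent.Helper383.FM
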