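import Pool.Agent.Helper383.FM.Core

/-!
# The key inequality, second part: summation over all levels
-/

set_option autoImplicit false

open MeasureTheory Finset

open scoped ENNReal

namespace Pool.Agent.Helper383.FM

variable {d : ℕ}

/-- at most one element of `B` of each level in each dyadic cube -/
def Sep (ρ : (Fin d → ℤ) → ℕ) (B : Finset (Fin d → ℤ)) : Prop :=
  ∀ b ∈ B, ∀ b' ∈ B, lev ρ b = lev ρ b' →
    (∀ i, b i / (2 : ℤ) ^ lev ρ b = b' i / (2 : ℤ) ^ lev ρ b) → b = b'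

theorem mult_bound {ρ : (Fin d → ℤ) → ℕ} {B : Finset (Fin d → ℤ)} (hS : Sep ρ B) (K : ℕ)
    (x : Fin d → ℤ) (k : ℕ) (T : Finset (Fin d → ℤ)) (hT : T ⊆ B)
    (hTk : ∀ b ∈ T, lev ρ b = k) (hTx : ∀ b ∈ T, x ∈ cube b (K * 2 ^ k)) :
    T.card ≤ (2 * K + 1) ^ d := by
  classical
  rw [← card_cube (fun i => x i / (2 : ℤ) ^ k) K]
  have hpos : (0 : ℤ) < 2 ^ k := by positivity
  apply Finset.card_le_card_of_injOn (fun b i => b i / (2 : ℤ) ^ k)
  · intro b hb
    have hb' : b ∈ T := by exact_mod_cast hb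
    have h1 := hTx b hb'
    rw [mem_cube] at h1
    simp only [Finset.mem_coe]
    rw [mem_cube]
    intro i
    have h2 := abs_le.mp (h1 i)
    push_cast at h2
    have h3 : b i / (2 : ℤ) ^ k ≤ x i / (2 : ℤ) ^ k + K := by
      rw [← Int.add_mul_ediv_right _ _ hpos.ne']
      apply Int.ediv_le_ediv hpos
      linarith [h2.1]
    have h4 : x i / (2 : ℤ) ^ k - K ≤ b i / (2 : ℤ) ^ k := by
      have h5 : x i / (2 : ℤ) ^ k ≤ b i / (2 : ℤ) ^ k + K := by
        rw [← Int.add_mul_ediv_right _ _ hpos.ne']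
        apply Int.ediv_le_ediv hpos
        linarith [h2.2]
      linarith
    rw [abs_le]
    constructor <;> linarith
  · intro b hb b' hb' hbb
    have hb1 : b ∈ T := by exact_mod_cast hb
    have hb2 : b' ∈ T := by exact_mod_cast hb'
    apply hS b (hT hb1) b' (hT hb2) (by rw [hTk b hb1, hTk b' hb2])
    intro i
    rw [hTk b hb1]
    exact congrFun hbb i

/-- the constant in the overlap estimate -/
noncomputable def CW (d : ℕ) (β Γ : ℝ) (K : ℕ) : ℝ :=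
  (Γ * (2 + 2 * (K : ℝ)) ^ d / c1 d) ^ (1 / (d : ℝ)) * (2 * (K : ℝ) + 1) ^ d *
    (1 - ((2 : ℝ) ^ (-β)) ^ (1 / (d : ℝ)))⁻¹

theorem theta_lt_one (hd : 1 ≤ d) {β : ℝ} (hβ0 : 0 < β) :
    ((2 : ℝ) ^ (-β)) ^ (1 / (d : ℝ)) < 1 := by
  have hd0 : (0 : ℝ) < d := by exact_mod_cast hd
  apply Real.rpow_lt_one (by positivity) _ (by positivity)
  apply Real.rpow_lt_one_of_one_lt_of_neg (by norm_num)
  linarith

theorem CW_nonneg (hd : 1 ≤ d) {β Γ : ℝ} (hβ0 : 0 < β) (hΓ : 1 ≤ Γ) (K : ℕ) :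
    0 ≤ CW d β Γ K := by
  unfold CW
  have h1 := theta_lt_one hd hβ0
  have h2 := c1_pos d
  have h3 : 0 ≤ (1 - ((2 : ℝ) ^ (-β)) ^ (1 / (d : ℝ)))⁻¹ := inv_nonneg.mpr (by linarith)
  have h4 : 0 ≤ Γ * (2 + 2 * (K : ℝ)) ^ d / c1 d := by positivity
  positivity

theorem overlap (hd : 1 ≤ d) {β Γ : ℝ} {f : (Fin d → ℤ) → ℝ} {ρ : (Fin d → ℤ) → ℕ}
    {B : Finset (Fin d → ℤ)} (hβ0 : 0 < β) (hβ1 : β < 1) (hΓ : 1 ≤ Γ) {K : ℕ} (hK2 : 2 ≤ K)
    (hG : Good β Γ f ρ B) (hS : Sep ρ B) {lam : ℝ} (hlam : 0 < lam) (x : Fin d → ℤ)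
    (T : Finset (Fin d → ℤ)) (hT : T ⊆ B) (hTx : ∀ b ∈ T, x ∈ cube b (K * 2 ^ lev ρ b))
    (hTl : ∀ b ∈ T, c1 d * mu f ρ b < lam) :
    ∑ b ∈ T, (mu f ρ b / lam) ^ (1 / (d : ℝ)) ≤ CW d β Γ K := by
  classical
  have hd0 : (0 : ℝ) < d := by exact_mod_cast hd
  rcases T.eq_empty_or_nonempty with hemp | hne
  · rw [hemp, Finset.sum_empty]
    exact CW_nonneg hd hβ0 hΓ K
  obtain ⟨b0, hb0, hmin⟩ := Finset.exists_min_image T (lev ρ) hne
  set θ : ℝ := ((2 : ℝ) ^ (-β)) ^ (1 / (d : ℝ)) with hθ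
  have hθ0 : 0 ≤ θ := by positivity
  have hθ1 : θ < 1 := theta_lt_one hd hβ0
  set Cd : ℝ := Γ * (2 + 2 * (K : ℝ)) ^ d with hCd
  have hCd0 : 0 ≤ Cd := by positivity
  have hc := c1_pos d
  have hμ0 := mu_nonneg hG.nonneg ρ b0
  have hterm : ∀ b ∈ T, (mu f ρ b / lam) ^ (1 / (d : ℝ)) ≤
      (Cd / c1 d) ^ (1 / (d : ℝ)) * θ ^ (lev ρ b - lev ρ b0) := by
    intro b hb
    have h1 := mu_decay hd hβ0 hβ1 hΓ hK2 hG (hT hb0) (hmin b hb) (hTx b0 hb0) (hTx b hb)
    have h2 : mu f ρ b0 / lam ≤ 1 / c1 d := by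
      rw [div_le_div_iff₀ hlam hc]
      linarith [hTl b0 hb0]
    have h3 : mu f ρ b / lam ≤ (Cd / c1 d) * ((2 : ℝ) ^ (-β)) ^ (lev ρ b - lev ρ b0) := by
      calc mu f ρ b / lam ≤ (Cd * ((2 : ℝ) ^ (-β)) ^ (lev ρ b - lev ρ b0) * mu f ρ b0) / lam := by
            gcongr
        _ = Cd * ((2 : ℝ) ^ (-β)) ^ (lev ρ b - lev ρ b0) * (mu f ρ b0 / lam) := by ring
        _ ≤ Cd * ((2 : ℝ) ^ (-β)) ^ (lev ρ b - lev ρ b0) * (1 / c1 d) := by gcongr
        _ = _ := by ring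
    have h4 : 0 ≤ mu f ρ b / lam := div_nonneg (mu_nonneg hG.nonneg ρ b) hlam.le
    refine (Real.rpow_le_rpow h4 h3 (by positivity)).trans (le_of_eq ?_)
    rw [Real.mul_rpow (by positivity) (by positivity)]
    congr 1
    rw [hθ]
    have ha : 0 ≤ (2 : ℝ) ^ (-β) := by positivity
    generalize (2 : ℝ) ^ (-β) = a at ha
    rw [← Real.rpow_natCast a, ← Real.rpow_natCast (a ^ (1 / (d : ℝ))), ← Real.rpow_mul ha,
      ← Real.rpow_mul ha, mul_comm]
  refine (Finset.sum_le_sum hterm).trans ?_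
  rw [← Finset.mul_sum]
  have hsum : ∑ b ∈ T, θ ^ (lev ρ b - lev ρ b0) ≤ (2 * (K : ℝ) + 1) ^ d * (1 - θ)⁻¹ := by
    rw [Finset.sum_comp (fun j : ℕ => θ ^ (j - lev ρ b0)) (lev ρ)]
    calc ∑ j ∈ T.image (lev ρ), (T.filter (fun b => lev ρ b = j)).card • θ ^ (j - lev ρ b0)
        ≤ ∑ j ∈ T.image (lev ρ), (2 * (K : ℝ) + 1) ^ d * θ ^ (j - lev ρ b0) := by
          refine Finset.sum_le_sum fun j _ => ?_
          rw [nsmul_eq_mul]
          apply mul_le_mul_of_nonneg_right _ (by positivity)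
          have hm := mult_bound hS K x j (T.filter (fun b => lev ρ b = j))
            ((Finset.filter_subset _ _).trans hT)
            (fun b hb => (Finset.mem_filter.mp hb).2)
            (fun b hb => by
              obtain ⟨h1, h2⟩ := Finset.mem_filter.mp hb
              have := hTx b h1
              rwa [h2] at this)
          exact_mod_cast hm
      _ = (2 * (K : ℝ) + 1) ^ d * ∑ j ∈ T.image (lev ρ), θ ^ (j - lev ρ b0) := by
          rw [Finset.mul_sum]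
      _ ≤ (2 * (K : ℝ) + 1) ^ d * (1 - θ)⁻¹ := by
          apply mul_le_mul_of_nonneg_left _ (by positivity)
          have hinj : Set.InjOn (fun j : ℕ => j - lev ρ b0) (T.image (lev ρ) : Set ℕ) := by
            intro j hj j' hj' hjj
            have h1 : lev ρ b0 ≤ j := by
              rw [Finset.mem_coe, Finset.mem_image] at hj
              obtain ⟨b, hb, rfl⟩ := hj
              exact hmin b hb
            have h2 : lev ρ b0 ≤ j' := by
              rw [Finset.mem_coe, Finset.mem_image] at hj'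
              obtain ⟨b, hb, rfl⟩ := hj'
              exact hmin b hb
            simp only at hjj
            omega
          rw [← Finset.sum_image (f := fun i : ℕ => θ ^ i) hinj, ← tsum_geometric_of_lt_one hθ0 hθ1]
          exact (summable_geometric_of_lt_one hθ0 hθ1).sum_le_tsum _ (fun i _ => by positivity)
  calc (Cd / c1 d) ^ (1 / (d : ℝ)) * ∑ b ∈ T, θ ^ (lev ρ b - lev ρ b0)
      ≤ (Cd / c1 d) ^ (1 / (d : ℝ)) * ((2 * (K : ℝ) + 1) ^ d * (1 - θ)⁻¹) := by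
        apply mul_le_mul_of_nonneg_left hsum (by positivity)
    _ = CW d β Γ K := by
        unfold CW
        rw [← hθ, ← hCd]
        ring

/-- the value jumps over `lam` along the edge `p` -/
def jump (f : (Fin d → ℤ) → ℝ) (lam : ℝ) (p : (Fin d → ℤ) × Fin d) : Prop :=
  ¬ (lam < f p.1 ↔ lam < f (p.1 + e p.2))

open Classical in
theorem pointwise (hd : 1 ≤ d) {β Γ : ℝ} {f : (Fin d → ℤ) → ℝ} {ρ : (Fin d → ℤ) → ℕ}
    {B : Finset (Fin d → ℤ)} (hβ0 : 0 < β) (hβ1 : β < 1) (hΓ : 1 ≤ Γ) {K : ℕ} (hK2 : 2 ≤ K)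
    (hK : 4 * 2 ^ d * Γ ≤ (K : ℝ) ^ β)
    (hG : Good β Γ f ρ B) (hS : Sep ρ B) {lam : ℝ} (hlam : 0 < lam)
    (Z : Finset ((Fin d → ℤ) × Fin d))
    (hZ : ∀ b ∈ B, ∀ x ∈ cube b (K * 2 ^ lev ρ b), ∀ i, (x, i) ∈ Z) :
    ∑ b ∈ B, (if c1 d * mu f ρ b < lam then
      (((cube b (ρ b)).filter (fun m => lam < f m)).card : ℝ) / 2 ^ lev ρ b else 0) ≤
      (Cw d β Γ K * CW d β Γ K) * ∑ p ∈ Z, (if jump f lam p then (1 : ℝ) else 0) := by
  have hμ0 := fun b => mu_nonneg hG.nonneg ρ b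
  have hCw0 : 0 ≤ Cw d β Γ K := by
    unfold Cw
    have := cI_pos hd
    have h2 : 0 ≤ Γ * (K : ℝ) ^ ((d : ℝ) - β) := by positivity
    positivity
  set T := B.filter (fun b => c1 d * mu f ρ b < lam) with hT
  calc ∑ b ∈ B, (if c1 d * mu f ρ b < lam then
      (((cube b (ρ b)).filter (fun m => lam < f m)).card : ℝ) / 2 ^ lev ρ b else 0)
      = ∑ b ∈ T, (((cube b (ρ b)).filter (fun m => lam < f m)).card : ℝ) / 2 ^ lev ρ b := by
        rw [hT, Finset.sum_filter]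
    _ ≤ ∑ b ∈ T, Cw d β Γ K * (mu f ρ b / lam) ^ (1 / (d : ℝ)) *
        (bd {m | lam < f m} (cube b (K * 2 ^ lev ρ b))).card := by
        refine Finset.sum_le_sum fun b hb => ?_
        obtain ⟨h1, h2⟩ := Finset.mem_filter.mp hb
        exact local_bound hd hβ1 hΓ hK2 hK hG h1 hlam h2
    _ ≤ ∑ b ∈ T, ∑ p ∈ Z, (if jump f lam p ∧ p.1 ∈ cube b (K * 2 ^ lev ρ b) then
          Cw d β Γ K * (mu f ρ b / lam) ^ (1 / (d : ℝ)) else 0) := by
        refine Finset.sum_le_sum fun b hb => ?_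
        obtain ⟨h1, h2⟩ := Finset.mem_filter.mp hb
        have h3 : 0 ≤ Cw d β Γ K * (mu f ρ b / lam) ^ (1 / (d : ℝ)) :=
          mul_nonneg hCw0 (Real.rpow_nonneg (div_nonneg (hμ0 b) hlam.le) _)
        rw [← Finset.sum_filter, Finset.sum_const, nsmul_eq_mul, mul_comm]
        apply mul_le_mul_of_nonneg_right _ h3
        have h4 : bd {m | lam < f m} (cube b (K * 2 ^ lev ρ b)) ⊆
            Z.filter (fun p => jump f lam p ∧ p.1 ∈ cube b (K * 2 ^ lev ρ b)) := by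
          intro p hp
          rw [mem_bd] at hp
          rw [Finset.mem_filter]
          exact ⟨hZ b h1 p.1 hp.1 p.2, hp.2.2, hp.1⟩
        exact_mod_cast Finset.card_le_card h4
    _ = ∑ p ∈ Z, ∑ b ∈ T, (if jump f lam p ∧ p.1 ∈ cube b (K * 2 ^ lev ρ b) then
          Cw d β Γ K * (mu f ρ b / lam) ^ (1 / (d : ℝ)) else 0) := Finset.sum_comm
    _ ≤ ∑ p ∈ Z, (Cw d β Γ K * CW d β Γ K) * (if jump f lam p then (1 : ℝ) else 0) := by
        refine Finset.sum_le_sum fun p _ => ?_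
        by_cases hj : jump f lam p
        · simp only [hj, true_and, if_true, mul_one]
          rw [← Finset.sum_filter, ← Finset.mul_sum]
          apply mul_le_mul_of_nonneg_left _ hCw0
          apply overlap hd hβ0 hβ1 hΓ hK2 hG hS hlam p.1
          · exact (Finset.filter_subset _ _).trans (Finset.filter_subset _ _)
          · intro b hb
            exact (Finset.mem_filter.mp hb).2
          · intro b hb
            exact (Finset.mem_filter.mp (Finset.mem_filter.mp hb).1).2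
        · simp [hj]
    _ = _ := by rw [Finset.mul_sum]

end Pool.Agent.Helper383.FM
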