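import Pool.Agent.Helper383.FM.Key

/-!
# The key inequality, third part: integration over the levels
-/

set_option autoImplicit false

open MeasureTheory Finset

open scoped ENNReal

namespace Pool.Agent.Helper383.FM

variable {d : ℕ}

open Classical in
theorem lint_level (Q : Finset (Fin d → ℤ)) (f : (Fin d → ℤ) → ℝ) {a w : ℝ} (ha : 0 ≤ a)
    (hw : 0 ≤ w) :
    ∫⁻ lam in Set.Ioi (0 : ℝ), ENNReal.ofReal
      (if a < lam then ((Q.filter (fun m => lam < f m)).card : ℝ) / w else 0) =
      ∑ m ∈ Q, ENNReal.ofReal (1 / w) * ENNReal.ofReal (f m - a) := by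
  have hpt : ∀ lam : ℝ, ENNReal.ofReal
      (if a < lam then ((Q.filter (fun m => lam < f m)).card : ℝ) / w else 0) =
      ∑ m ∈ Q, (Set.Ioo a (f m)).indicator (fun _ => ENNReal.ofReal (1 / w)) lam := by
    intro lam
    by_cases hl : a < lam
    · rw [if_pos hl, div_eq_mul_one_div, ENNReal.ofReal_mul (Nat.cast_nonneg _),
        ENNReal.ofReal_natCast]
      have : ∀ m, (Set.Ioo a (f m)).indicator (fun _ => ENNReal.ofReal (1 / w)) lam =
          if lam < f m then ENNReal.ofReal (1 / w) else 0 := by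
        intro m
        by_cases h : lam < f m
        · rw [Set.indicator_of_mem (Set.mem_Ioo.mpr ⟨hl, h⟩), if_pos h]
        · rw [Set.indicator_of_notMem (fun hh => h hh.2), if_neg h]
      rw [Finset.sum_congr rfl (fun m _ => this m), ← Finset.sum_filter, Finset.sum_const,
        nsmul_eq_mul]
    · rw [if_neg hl, ENNReal.ofReal_zero]
      symm
      refine Finset.sum_eq_zero fun m _ => ?_
      rw [Set.indicator_of_notMem (fun hh => hl hh.1)]
  rw [lintegral_congr hpt, lintegral_finsetSum _ (fun m _ =>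
    (measurable_const.indicator measurableSet_Ioo))]
  refine Finset.sum_congr rfl fun m _ => ?_
  rw [lintegral_indicator_const measurableSet_Ioo, Measure.restrict_apply measurableSet_Ioo]
  congr 1
  have : Set.Ioo a (f m) ∩ Set.Ioi 0 = Set.Ioo a (f m) := by
    ext y
    simp only [Set.mem_inter_iff, Set.mem_Ioo, Set.mem_Ioi]
    constructor
    · rintro ⟨h, _⟩; exact h
    · intro h; exact ⟨h, by linarith [h.1]⟩
  rw [this, Real.volume_Ioo]

open Classical in
theorem lint_jump (f : (Fin d → ℤ) → ℝ) (p : (Fin d → ℤ) × Fin d) :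
    ∫⁻ lam in Set.Ioi (0 : ℝ), (if jump f lam p then (1 : ℝ≥0∞) else 0) ≤
      ENNReal.ofReal |f (p.1 + e p.2) - f p.1| := by
  set a := f p.1
  set c := f (p.1 + e p.2)
  have hpt : ∀ lam : ℝ, (if jump f lam p then (1 : ℝ≥0∞) else 0) =
      (Set.Ico (min a c) (max a c)).indicator (fun _ => 1) lam := by
    intro lam
    have hiff : jump f lam p ↔ lam ∈ Set.Ico (min a c) (max a c) := by
      unfold jump
      change ¬ (lam < a ↔ lam < c) ↔ _
      rw [Set.mem_Ico, min_le_iff, lt_max_iff]
      constructor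
      · intro h
        by_cases h1 : lam < a
        · have h2 : ¬ lam < c := fun h2 => h ⟨fun _ => h2, fun _ => h1⟩
          exact ⟨Or.inr (not_lt.mp h2), Or.inl h1⟩
        · have h2 : lam < c := by
            by_contra h2
            exact h ⟨fun h3 => absurd h3 h1, fun h3 => absurd h3 h2⟩
          exact ⟨Or.inl (not_lt.mp h1), Or.inr h2⟩
      · rintro ⟨h1, h2⟩ h3
        rcases h2 with h2 | h2
        · have h4 := h3.mp h2
          rcases h1 with h1 | h1 <;> linarith
        · have h4 := h3.mpr h2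
          rcases h1 with h1 | h1 <;> linarith
    by_cases hj : jump f lam p
    · rw [if_pos hj, Set.indicator_of_mem (hiff.mp hj)]
    · rw [if_neg hj, Set.indicator_of_notMem (fun hh => hj (hiff.mpr hh))]
  rw [lintegral_congr hpt, lintegral_indicator_const measurableSet_Ico, one_mul]
  refine (Measure.restrict_apply_le _ _).trans ?_
  rw [Real.volume_Ico, max_sub_min_eq_abs, abs_sub_comm]

theorem key (hd : 1 ≤ d) {β Γ : ℝ} {f : (Fin d → ℤ) → ℝ} {ρ : (Fin d → ℤ) → ℕ}
    {B : Finset (Fin d → ℤ)} (hβ0 : 0 < β) (hβ1 : β < 1) (hΓ : 1 ≤ Γ) {K : ℕ} (hK2 : 2 ≤ K)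
    (hK : 4 * 2 ^ d * Γ ≤ (K : ℝ) ^ β)
    (hG : Good β Γ f ρ B) (hS : Sep ρ B)
    (Z : Finset ((Fin d → ℤ) × Fin d))
    (hZ : ∀ b ∈ B, ∀ x ∈ cube b (K * 2 ^ lev ρ b), ∀ i, (x, i) ∈ Z) :
    ∑ b ∈ B, S f b (ρ b) / 2 ^ lev ρ b ≤
      (2 * (Cw d β Γ K * CW d β Γ K)) * ∑ p ∈ Z, |f (p.1 + e p.2) - f p.1| := by
  classical
  set C := Cw d β Γ K * CW d β Γ K with hC
  have hC0 : 0 ≤ C := by
    rw [hC]
    apply mul_nonneg _ (CW_nonneg hd hβ0 hΓ K)
    unfold Cw
    have := cI_pos hd
    have h2 : 0 ≤ Γ * (K : ℝ) ^ ((d : ℝ) - β) := by positivity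
    positivity
  have hμ0 := fun b => mu_nonneg hG.nonneg ρ b
  have hc := c1_pos d
  -- lower bound for each cube
  have hlow : ∀ b ∈ B, ENNReal.ofReal (S f b (ρ b) / 2 / 2 ^ lev ρ b) ≤
      ∫⁻ lam in Set.Ioi (0 : ℝ), ENNReal.ofReal
      (if c1 d * mu f ρ b < lam then
        (((cube b (ρ b)).filter (fun m => lam < f m)).card : ℝ) / 2 ^ lev ρ b else 0) := by
    intro b hb
    rw [lint_level (cube b (ρ b)) f (mul_nonneg hc.le (hμ0 b)) (by positivity), ← Finset.mul_sum]
    set a := c1 d * mu f ρ b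
    have h1 : S f b (ρ b) / 2 ≤ ∑ m ∈ cube b (ρ b), max (f m - a) 0 := by
      have h2 : ∑ m ∈ cube b (ρ b), (f m - a) ≤ ∑ m ∈ cube b (ρ b), max (f m - a) 0 :=
        Finset.sum_le_sum fun m _ => le_max_left _ _
      refine le_trans ?_ h2
      rw [Finset.sum_sub_distrib, Finset.sum_const, nsmul_eq_mul, card_cube]
      change S f b (ρ b) / 2 ≤ S f b (ρ b) - _
      have h3 : (((2 * ρ b + 1) ^ d : ℕ) : ℝ) * a ≤ S f b (ρ b) / 2 := by
        have h4 : (((2 * ρ b + 1) ^ d : ℕ) : ℝ) ≤ (4 * 2 ^ lev ρ b) ^ d := by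
          push_cast
          have h5 : (2 * (ρ b : ℝ) + 1) ≤ 4 * 2 ^ lev ρ b := by
            have h6 := lt_two_pow_lev (ρ := ρ) (b := b)
            have h7 : 2 * ρ b + 1 ≤ 4 * 2 ^ lev ρ b := by omega
            exact_mod_cast h7
          gcongr
        calc (((2 * ρ b + 1) ^ d : ℕ) : ℝ) * a ≤ (4 * 2 ^ lev ρ b) ^ d * a := by
              apply mul_le_mul_of_nonneg_right h4 (mul_nonneg hc.le (hμ0 b))
          _ = S f b (ρ b) / 2 := by
              change (4 * 2 ^ lev ρ b) ^ d * (c1 d * mu f ρ b) = _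
              unfold c1 mu
              rw [mul_pow]
              field_simp
      linarith
    calc ENNReal.ofReal (S f b (ρ b) / 2 / 2 ^ lev ρ b)
        = ENNReal.ofReal (1 / 2 ^ lev ρ b) * ENNReal.ofReal (S f b (ρ b) / 2) := by
          rw [← ENNReal.ofReal_mul (by positivity)]
          congr 1
          ring
      _ ≤ ENNReal.ofReal (1 / 2 ^ lev ρ b) *
          ENNReal.ofReal (∑ m ∈ cube b (ρ b), max (f m - a) 0) := by
          gcongr
      _ = _ := by
          rw [ENNReal.ofReal_sum_of_nonneg (fun m _ => le_max_right _ _)]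
          congr 1
          refine Finset.sum_congr rfl fun m _ => ?_
          rcases le_total (f m - a) 0 with h | h
          · rw [max_eq_right h, ENNReal.ofReal_zero, ENNReal.ofReal_of_nonpos h]
          · rw [max_eq_left h]
  have hmeas : ∀ b ∈ B, Measurable (fun lam : ℝ => ENNReal.ofReal
      (if c1 d * mu f ρ b < lam then
        (((cube b (ρ b)).filter (fun m => lam < f m)).card : ℝ) / 2 ^ lev ρ b else 0)) := by
    intro b _
    apply ENNReal.measurable_ofReal.comp
    apply Measurable.ite (measurableSet_lt measurable_const measurable_id) _ measurable_const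
    apply Measurable.div_const
    have : (fun lam : ℝ => (((cube b (ρ b)).filter (fun m => lam < f m)).card : ℝ)) =
        fun lam => ∑ m ∈ cube b (ρ b), (if lam < f m then (1 : ℝ) else 0) := by
      funext lam
      simp
    rw [this]
    apply Finset.measurable_sum
    intro m _
    exact Measurable.ite (measurableSet_lt measurable_id measurable_const) measurable_const
      measurable_const
  have hjm : ∀ p : (Fin d → ℤ) × Fin d, Measurable
      (fun lam : ℝ => (if jump f lam p then (1 : ℝ≥0∞) else 0)) := by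
    intro p
    apply Measurable.ite _ measurable_const measurable_const
    unfold jump
    have h1 : MeasurableSet {lam : ℝ | lam < f p.1} := measurableSet_lt measurable_id measurable_const
    have h2 : MeasurableSet {lam : ℝ | lam < f (p.1 + e p.2)} :=
      measurableSet_lt measurable_id measurable_const
    have h3 : {a : ℝ | ¬ (a < f p.1 ↔ a < f (p.1 + e p.2))} =
        ({lam : ℝ | lam < f p.1} \ {lam : ℝ | lam < f (p.1 + e p.2)}) ∪
        ({lam : ℝ | lam < f (p.1 + e p.2)} \ {lam : ℝ | lam < f p.1}) := by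
      ext a
      simp only [Set.mem_ofPred_eq, Set.mem_union, Set.mem_sdiff]
      tauto
    rw [h3]
    exact (h1.diff h2).union (h2.diff h1)
  have hfinal : ENNReal.ofReal (∑ b ∈ B, S f b (ρ b) / 2 / 2 ^ lev ρ b) ≤
      ENNReal.ofReal (C * ∑ p ∈ Z, |f (p.1 + e p.2) - f p.1|) := by
    calc ENNReal.ofReal (∑ b ∈ B, S f b (ρ b) / 2 / 2 ^ lev ρ b)
        = ∑ b ∈ B, ENNReal.ofReal (S f b (ρ b) / 2 / 2 ^ lev ρ b) := by
          rw [ENNReal.ofReal_sum_of_nonneg]
          intro b _
          have := S_nonneg hG.nonneg b (ρ b)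
          positivity
      _ ≤ ∑ b ∈ B, ∫⁻ lam in Set.Ioi (0 : ℝ), ENNReal.ofReal
          (if c1 d * mu f ρ b < lam then
            (((cube b (ρ b)).filter (fun m => lam < f m)).card : ℝ) / 2 ^ lev ρ b else 0) :=
          Finset.sum_le_sum hlow
      _ = ∫⁻ lam in Set.Ioi (0 : ℝ), ∑ b ∈ B, ENNReal.ofReal
          (if c1 d * mu f ρ b < lam then
            (((cube b (ρ b)).filter (fun m => lam < f m)).card : ℝ) / 2 ^ lev ρ b else 0) := by
          rw [lintegral_finsetSum _ hmeas]
      _ ≤ ∫⁻ lam in Set.Ioi (0 : ℝ), ENNReal.ofReal C *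
          ∑ p ∈ Z, (if jump f lam p then (1 : ℝ≥0∞) else 0) := by
          refine setLIntegral_mono' measurableSet_Ioi fun lam hlam => ?_
          have h1 := pointwise hd hβ0 hβ1 hΓ hK2 hK hG hS hlam Z hZ
          rw [← ENNReal.ofReal_sum_of_nonneg]
          · refine (ENNReal.ofReal_le_ofReal h1).trans (le_of_eq ?_)
            rw [ENNReal.ofReal_mul hC0, ENNReal.ofReal_sum_of_nonneg]
            · congr 1
              refine Finset.sum_congr rfl fun p _ => ?_
              by_cases hj : jump f lam p <;> simp [hj]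
            · intro p _
              by_cases hj : jump f lam p <;> simp [hj]
          · intro b _
            split_ifs
            · positivity
            · exact le_rfl
      _ = ENNReal.ofReal C * ∑ p ∈ Z, ∫⁻ lam in Set.Ioi (0 : ℝ),
          (if jump f lam p then (1 : ℝ≥0∞) else 0) := by
          rw [lintegral_const_mul _ (Finset.measurable_sum _ (fun p _ => hjm p)),
            lintegral_finsetSum _ (fun p _ => hjm p)]
      _ ≤ ENNReal.ofReal C * ∑ p ∈ Z, ENNReal.ofReal |f (p.1 + e p.2) - f p.1| := by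
          gcongr with p _
          exact lint_jump f p
      _ = _ := by
          rw [ENNReal.ofReal_mul hC0, ENNReal.ofReal_sum_of_nonneg (fun p _ => abs_nonneg _)]
  have h2 := (ENNReal.ofReal_le_ofReal_iff (by positivity)).mp hfinal
  have h3 : ∑ b ∈ B, S f b (ρ b) / 2 / 2 ^ lev ρ b =
      (∑ b ∈ B, S f b (ρ b) / 2 ^ lev ρ b) / 2 := by
    rw [Finset.sum_div]
    refine Finset.sum_congr rfl fun b _ => ?_
    ring
  rw [h3] at h2
  linarith

end Pool.Agent.Helper383.FM
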