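import Pool.Agent.Helper383.FM.Iso

/-!
# Lattice points in dilates of a convex body
-/

set_option autoImplicit false

open MeasureTheory Finset

open scoped ENNReal Pointwise

namespace Pool.Agent.Helper383.FM

variable {d : ℕ}

/-- the point of `ℝ^d` with the same coordinates -/
def toR (m : Fin d → ℤ) : Fin d → ℝ := fun i => (m i : ℝ)

/-- hypotheses on the convex body -/
structure Body (K : Set (Fin d → ℝ)) (c0 C0 : ℝ) : Prop where
  conv : Convex ℝ K
  closed : IsClosed K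
  c0pos : 0 < c0
  c0le : c0 ≤ C0
  inner : ∀ y : Fin d → ℝ, (∀ i, |y i| ≤ c0) → y ∈ K
  outer : ∀ y ∈ K, ∀ i, |y i| ≤ C0

/-- the dilate `x + r K` -/
def kb (K : Set (Fin d → ℝ)) (x : Fin d → ℝ) (r : ℝ) : Set (Fin d → ℝ) :=
  {y | ∃ k ∈ K, y = x + r • k}

theorem kb_eq (K : Set (Fin d → ℝ)) (x : Fin d → ℝ) (r : ℝ) : kb K x r = x +ᵥ (r • K) := by
  ext y
  unfold kb
  simp only [Set.mem_ofPred_eq]
  rw [Set.mem_vadd_set]
  constructor
  · rintro ⟨k, hk, rfl⟩
    exact ⟨r • k, Set.smul_mem_smul_set hk, rfl⟩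
  · rintro ⟨z, hz, rfl⟩
    obtain ⟨k, hk, rfl⟩ := Set.mem_smul_set.mp hz
    exact ⟨k, hk, rfl⟩

theorem volume_kb (K : Set (Fin d → ℝ)) (x : Fin d → ℝ) {r : ℝ} (hr : 0 ≤ r) :
    volume (kb K x r) = ENNReal.ofReal (r ^ d) * volume K := by
  rw [kb_eq, measure_vadd, Measure.addHaar_smul]
  simp only [Module.finrank_fintype_fun_eq_card, Fintype.card_fin]
  rw [abs_of_nonneg (by positivity)]

section body

variable {K : Set (Fin d → ℝ)} {c0 C0 : ℝ}

theorem Body.zero_mem (hK : Body K c0 C0) : (0 : Fin d → ℝ) ∈ K :=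
  hK.inner 0 (fun i => by simpa using hK.c0pos.le)

theorem kb_add (hK : Body K c0 C0) {x y u : Fin d → ℝ} {r t : ℝ} (hr : 0 ≤ r) (ht : 0 ≤ t)
    (hy : y ∈ kb K x r) (hu : ∀ i, |u i| ≤ t * c0) : y + u ∈ kb K x (r + t) := by
  obtain ⟨k, hk, rfl⟩ := hy
  rcases ht.eq_or_lt with h0 | h0
  · have hu0 : u = 0 := by
      funext i
      have := hu i
      rw [← h0, zero_mul] at this
      simpa using this
    refine ⟨k, hk, ?_⟩
    rw [hu0, ← h0]; simp
  · have hrt : 0 < r + t := by linarith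
    have hk' : t⁻¹ • u ∈ K := by
      apply hK.inner
      intro i
      rw [Pi.smul_apply, smul_eq_mul, abs_mul, abs_of_pos (inv_pos.mpr h0)]
      rw [inv_mul_le_iff₀ h0]
      exact hu i
    refine ⟨(r / (r + t)) • k + (t / (r + t)) • (t⁻¹ • u), ?_, ?_⟩
    · apply hK.conv hk hk' (by positivity) (by positivity)
      field_simp
    · funext i
      simp only [Pi.add_apply, Pi.smul_apply, smul_eq_mul]
      field_simp
      ring

theorem kb_mono (hK : Body K c0 C0) {x : Fin d → ℝ} {r r' : ℝ} (hr : 0 ≤ r) (h : r ≤ r') :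
    kb K x r ⊆ kb K x r' := by
  intro y hy
  have := kb_add hK (u := 0) hr (sub_nonneg.mpr h) hy (fun i => by
    simpa using mul_nonneg (sub_nonneg.mpr h) hK.c0pos.le)
  simpa using this

theorem kb_cube (hK : Body K c0 C0) {x y : Fin d → ℝ} {t : ℝ} (ht : 0 ≤ t)
    (hu : ∀ i, |y i - x i| ≤ t * c0) : y ∈ kb K x t := by
  have h1 : x ∈ kb K x 0 := ⟨0, hK.zero_mem, by simp⟩
  have := kb_add hK (u := y - x) le_rfl ht h1 (fun i => by simpa using hu i)
  simpa using this

theorem kb_outer (hK : Body K c0 C0) {x y : Fin d → ℝ} {r : ℝ} (hr : 0 ≤ r) (hy : y ∈ kb K x r)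
    (i : Fin d) : |y i - x i| ≤ r * C0 := by
  obtain ⟨k, hk, rfl⟩ := hy
  simp only [Pi.add_apply, Pi.smul_apply, smul_eq_mul, add_sub_cancel_left]
  rw [abs_mul, abs_of_nonneg hr]
  exact mul_le_mul_of_nonneg_left (hK.outer k hk i) hr

theorem kb_shift {x y : Fin d → ℝ} {r : ℝ} (v : Fin d → ℝ) :
    y + v ∈ kb K (x + v) r ↔ y ∈ kb K x r := by
  unfold kb
  simp only [Set.mem_ofPred_eq]
  constructor
  · rintro ⟨k, hk, h⟩
    refine ⟨k, hk, ?_⟩
    have : y = (x + v + r • k) - v := by rw [← h]; simp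
    rw [this]; abel
  · rintro ⟨k, hk, h⟩
    refine ⟨k, hk, ?_⟩
    rw [h]; abel

/-- the lattice points of a dilate -/
def lat (K : Set (Fin d → ℝ)) (x : Fin d → ℝ) (r : ℝ) : Set (Fin d → ℤ) := {m | toR m ∈ kb K x r}

theorem lat_finite (hK : Body K c0 C0) (x : Fin d → ℝ) {r : ℝ} (hr : 0 ≤ r) :
    (lat K x r).Finite := by
  apply Set.Finite.subset (Finset.finite_toSet (cube (fun i => ⌊x i⌋) (⌈r * C0 + 1⌉₊)))
  intro m hm
  simp only [Finset.mem_coe]
  rw [mem_cube]
  intro i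
  have h1 := kb_outer hK hr hm i
  have h2 : |((m i - ⌊x i⌋ : ℤ) : ℝ)| ≤ r * C0 + 1 := by
    push_cast
    have h3 : |(toR m i) - x i| ≤ r * C0 := h1
    unfold toR at h3
    have h4 : (m i : ℝ) - ⌊x i⌋ = ((m i : ℝ) - x i) + (x i - ⌊x i⌋) := by ring
    rw [h4]
    refine (abs_add_le _ _).trans ?_
    have h5 : |x i - ⌊x i⌋| ≤ 1 := by
      rw [abs_le]
      constructor
      · linarith [Int.floor_le (x i)]
      · linarith [Int.lt_floor_add_one (x i)]
    linarith
  have h6 : ((|m i - ⌊x i⌋| : ℤ) : ℝ) ≤ ((⌈r * C0 + 1⌉₊ : ℕ) : ℝ) := by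
    push_cast
    push_cast at h2
    exact h2.trans (Nat.le_ceil _)
  exact_mod_cast h6

/-- number of lattice points -/
noncomputable def cnt (K : Set (Fin d → ℝ)) (x : Fin d → ℝ) (r : ℝ) : ℕ := (lat K x r).ncard

/-- the half open unit cube with corner `m` -/
def ucube (m : Fin d → ℤ) : Set (Fin d → ℝ) :=
  Set.pi Set.univ (fun i => Set.Ico (m i : ℝ) ((m i : ℝ) + 1))

theorem mem_ucube {m : Fin d → ℤ} {y : Fin d → ℝ} :
    y ∈ ucube m ↔ ∀ i, (m i : ℝ) ≤ y i ∧ y i < m i + 1 := by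
  unfold ucube; simp

theorem mem_ucube_iff {m : Fin d → ℤ} {y : Fin d → ℝ} :
    y ∈ ucube m ↔ m = fun i => ⌊y i⌋ := by
  rw [mem_ucube]
  constructor
  · intro h
    funext i
    exact (Int.floor_eq_iff.mpr (h i)).symm
  · rintro rfl i
    exact ⟨Int.floor_le _, Int.lt_floor_add_one _⟩

theorem volume_ucube (m : Fin d → ℤ) : volume (ucube m) = 1 := by
  unfold ucube
  rw [Real.volume_pi_Ico]
  simp

theorem volume_iUnion (P : Finset (Fin d → ℤ)) :
    volume (⋃ m ∈ P, ucube m) = (P.card : ℝ≥0∞) := by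
  rw [measure_biUnion_finset]
  · simp [volume_ucube]
  · intro a _ b _ hab
    rw [Function.onFun, Set.disjoint_left]
    intro y hy1 hy2
    rw [mem_ucube_iff] at hy1 hy2
    exact hab (by rw [hy1, hy2])
  · intro m _
    exact MeasurableSet.univ_pi fun i => measurableSet_Ico

theorem volume_body_ne_top (hK : Body K c0 C0) : volume K ≠ ⊤ := by
  have h2 : K ⊆ Set.Icc (fun _ : Fin d => -C0) (fun _ : Fin d => C0) := by
    intro y hy
    have := hK.outer y hy
    constructor <;> intro i <;> have := abs_le.mp (this i)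
    · exact this.1
    · exact this.2
  refine ne_top_of_le_ne_top ?_ (measure_mono h2)
  rw [Real.volume_Icc_pi]
  exact ENNReal.prod_ne_top fun i _ => ENNReal.ofReal_ne_top

theorem volume_body_pos (hK : Body K c0 C0) : 0 < (volume K).toReal := by
  apply ENNReal.toReal_pos _ (volume_body_ne_top hK)
  have h2 : Set.Icc (fun _ : Fin d => -c0) (fun _ : Fin d => c0) ⊆ K := by
    intro y hy
    apply hK.inner
    intro i
    rw [abs_le]
    exact ⟨hy.1 i, hy.2 i⟩
  have h3 : volume (Set.Icc (fun _ : Fin d => -c0) (fun _ : Fin d => c0)) ≠ 0 := by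
    rw [Real.volume_Icc_pi, Finset.prod_ne_zero_iff]
    intro i _
    have := hK.c0pos
    rw [Ne, ENNReal.ofReal_eq_zero, not_le]
    linarith
  exact fun h => h3 (measure_mono_null h2 h)

theorem card_lat (hK : Body K c0 C0) (x : Fin d → ℝ) {r : ℝ} (hr : 0 ≤ r) :
    cnt K x r = (lat_finite hK x hr).toFinset.card := by
  unfold cnt
  exact Set.ncard_eq_toFinset_card _ (lat_finite hK x hr)

theorem cnt_upper (hK : Body K c0 C0) (x : Fin d → ℝ) {r : ℝ} (hr : 0 ≤ r) :
    (cnt K x r : ℝ) ≤ (r + 1 / c0) ^ d * (volume K).toReal := by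
  have hc := hK.c0pos
  set P := (lat_finite hK x hr).toFinset with hP
  have h1 : (⋃ m ∈ P, ucube m) ⊆ kb K x (r + 1 / c0) := by
    intro y hy
    simp only [Set.mem_iUnion] at hy
    obtain ⟨m, hm, hym⟩ := hy
    have hm' : m ∈ lat K x r := by simpa [hP] using hm
    rw [mem_ucube] at hym
    have := kb_add hK (u := y - toR m) hr (by positivity : 0 ≤ 1 / c0) hm' (by
      intro i
      simp only [Pi.sub_apply]
      unfold toR
      rw [div_mul_cancel₀ _ hc.ne', abs_le]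
      constructor <;> linarith [(hym i).1, (hym i).2])
    simpa using this
  have h2 := measure_mono h1 (μ := volume)
  rw [volume_iUnion, volume_kb K x (by positivity)] at h2
  rw [card_lat hK x hr]
  have h3 := ENNReal.toReal_mono (ENNReal.mul_ne_top ENNReal.ofReal_ne_top (volume_body_ne_top hK)) h2
  rw [ENNReal.toReal_mul, ENNReal.toReal_ofReal (by positivity)] at h3
  simpa using h3

theorem cnt_lower (hK : Body K c0 C0) (x : Fin d → ℝ) {r : ℝ} (hr : 1 / c0 ≤ r) :
    (r - 1 / c0) ^ d * (volume K).toReal ≤ (cnt K x r : ℝ) := by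
  have hc := hK.c0pos
  have hr0 : 0 ≤ r := le_trans (by positivity) hr
  set P := (lat_finite hK x hr0).toFinset with hP
  have h1 : kb K x (r - 1 / c0) ⊆ (⋃ m ∈ P, ucube m) := by
    intro y hy
    simp only [Set.mem_iUnion]
    refine ⟨fun i => ⌊y i⌋, ?_, mem_ucube_iff.mpr rfl⟩
    rw [hP, Set.Finite.mem_toFinset]
    have := kb_add hK (u := toR (fun i => ⌊y i⌋) - y) (sub_nonneg.mpr hr)
      (by positivity : 0 ≤ 1 / c0) hy (by
      intro i
      simp only [Pi.sub_apply]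
      unfold toR
      rw [div_mul_cancel₀ _ hc.ne', abs_le]
      constructor <;> linarith [Int.floor_le (y i), Int.lt_floor_add_one (y i)])
    have h5 : toR (fun i => ⌊y i⌋) ∈ kb K x r := by simpa using this
    exact h5
  have h2 := measure_mono h1 (μ := volume)
  rw [volume_iUnion, volume_kb K x (sub_nonneg.mpr hr)] at h2
  rw [card_lat hK x hr0]
  have h3 := ENNReal.toReal_mono (ENNReal.natCast_ne_top _) h2
  rw [ENNReal.toReal_mul, ENNReal.toReal_ofReal (by have := sub_nonneg.mpr hr; positivity)] at h3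
  simpa using h3

theorem bern {t : ℝ} (ht : 0 ≤ t) (ht3 : t ≤ 3) (n : ℕ) : (1 + t) ^ n ≤ 1 + 5 ^ n * t := by
  induction n with
  | zero => simp; exact ht
  | succ n ih =>
    have h5 : (1 : ℝ) ≤ 5 ^ n := one_le_pow₀ (by norm_num)
    calc (1 + t) ^ (n + 1) = (1 + t) ^ n * (1 + t) := pow_succ _ _
      _ ≤ (1 + 5 ^ n * t) * (1 + t) := mul_le_mul_of_nonneg_right ih (by linarith)
      _ = 1 + t + 5 ^ n * t + 5 ^ n * (t * t) := by ring
      _ ≤ 1 + 5 ^ n * t + 5 ^ n * t + 5 ^ n * (3 * t) := by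
          have h6 : t * t ≤ 3 * t := mul_le_mul_of_nonneg_right ht3 ht
          have h7 : 5 ^ n * (t * t) ≤ 5 ^ n * (3 * t) := mul_le_mul_of_nonneg_left h6 (by positivity)
          have h8 : t ≤ 5 ^ n * t := le_mul_of_one_le_left ht h5
          linarith
      _ = 1 + 5 ^ (n + 1) * t := by ring

theorem cnt_ratio (hK : Body K c0 C0) (x x' : Fin d → ℝ) {r : ℝ} (hr : 2 / c0 ≤ r) :
    (cnt K x' (r + 1 / c0) : ℝ) ≤ cnt K x r * (1 + 6 * 5 ^ d / c0 / r) := by
  have hc := hK.c0pos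
  have hV := volume_body_pos hK
  set V := (volume K).toReal with hVd
  have hr0 : 0 < r := lt_of_lt_of_le (by positivity) hr
  have h1c : 1 / c0 ≤ r := le_trans (by gcongr; norm_num) hr
  have h1 := cnt_upper hK x' (r := r + 1 / c0) (by positivity)
  have h2 := cnt_lower hK x h1c
  have h3 : 0 < r - 1 / c0 := by
    have h4 : 2 / c0 = 1 / c0 + 1 / c0 := by ring
    have h5 : 0 < 1 / c0 := by positivity
    linarith
  have h4 : r / 2 ≤ r - 1 / c0 := by
    have h4 : 2 / c0 = 1 / c0 + 1 / c0 := by ring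
    linarith
  set t := (3 / c0) / (r - 1 / c0) with ht
  have ht0 : 0 ≤ t := by positivity
  have ht1 : t ≤ 6 / c0 / r := by
    rw [ht, div_le_div_iff₀ h3 hr0]
    have : 3 / c0 * r = 6 / c0 * (r / 2) := by ring
    rw [this]
    exact mul_le_mul_of_nonneg_left h4 (by positivity)
  have ht3 : t ≤ 3 := by
    rw [ht, div_le_iff₀ h3]
    have h4 : 2 / c0 = 1 / c0 + 1 / c0 := by ring
    have h5 : 3 / c0 = 3 * (1 / c0) := by ring
    rw [h5]
    linarith
  have hb := bern ht0 ht3 d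
  calc (cnt K x' (r + 1 / c0) : ℝ) ≤ (r + 1 / c0 + 1 / c0) ^ d * V := h1
    _ = (r - 1 / c0) ^ d * V * (1 + t) ^ d := by
        have h6 : r + 1 / c0 + 1 / c0 = (r - 1 / c0) * (1 + t) := by
          rw [mul_add, ht, mul_div_cancel₀ _ h3.ne']
          ring
        rw [h6, mul_pow]; ring
    _ ≤ (cnt K x r : ℝ) * (1 + 5 ^ d * t) := by
        apply mul_le_mul h2 hb (by positivity) (Nat.cast_nonneg _)
    _ ≤ _ := by
        apply mul_le_mul_of_nonneg_left _ (Nat.cast_nonneg _)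
        have h7 : 5 ^ d * t ≤ 5 ^ d * (6 / c0 / r) := mul_le_mul_of_nonneg_left ht1 (by positivity)
        have h8 : (5 : ℝ) ^ d * (6 / c0 / r) = 6 * 5 ^ d / c0 / r := by ring
        linarith

end body

end Pool.Agent.Helper383.FM
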