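import Pool.Agent.Helper383.FM.Lattice
import Pool.Agent.Helper383.FM.All

/-!
# Local estimates for the fractional maximal functions
-/

set_option autoImplicit false

open Finset

namespace Pool.Agent.Helper383.FM

variable {d : ℕ}

/-- the sum of `|f|` over the lattice points of a dilate -/
noncomputable def tot (K : Set (Fin d → ℝ)) (f : (Fin d → ℤ) → ℝ) (x : Fin d → ℝ) (r : ℝ) : ℝ :=
  ∑' m : lat K x r, |f m|

/-- the fractional average -/
noncomputable def avg (K : Set (Fin d → ℝ)) (β : ℝ) (f : (Fin d → ℤ) → ℝ) (x : Fin d → ℝ)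
    (r : ℝ) : ℝ := tot K f x r / (cnt K x r : ℝ) ^ (1 - β / d)

/-- admissible families of dilates -/
structure Adm (K : Set (Fin d → ℝ)) (c0 : ℝ) (A : (Fin d → ℤ) → Set ((Fin d → ℝ) × ℝ)) :
    Prop where
  nonneg : ∀ n, ∀ p ∈ A n, 0 ≤ p.2
  mem : ∀ n, ∀ p ∈ A n, toR n ∈ kb K p.1 p.2
  center : ∀ n r, 0 ≤ r → (toR n, r) ∈ A n
  shift : ∀ n v, ∀ p ∈ A n, (p.1 + toR v, p.2) ∈ A (n + v)
  enlarge : ∀ n v, (∀ i, |v i| ≤ 1) → ∀ p ∈ A n, ∃ x', (x', p.2 + 1 / c0) ∈ A (n + v) ∧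
    kb K p.1 p.2 ⊆ kb K x' (p.2 + 1 / c0)

section local_est

variable {K : Set (Fin d → ℝ)} {c0 C0 : ℝ} {A : (Fin d → ℤ) → Set ((Fin d → ℝ) × ℝ)}
  {β : ℝ} {f : (Fin d → ℤ) → ℝ} {M : (Fin d → ℤ) → ℝ}

theorem tot_eq (hK : Body K c0 C0) (f : (Fin d → ℤ) → ℝ) (x : Fin d → ℝ) {r : ℝ} (hr : 0 ≤ r) :
    tot K f x r = ∑ m ∈ (lat_finite hK x hr).toFinset, |f m| := by
  unfold tot
  rw [← Finset.tsum_subtype', Set.Finite.coe_toFinset]

theorem tot_nonneg (K : Set (Fin d → ℝ)) (f : (Fin d → ℤ) → ℝ) (x : Fin d → ℝ) (r : ℝ) :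
    0 ≤ tot K f x r := tsum_nonneg fun _ => abs_nonneg _

theorem avg_nonneg (K : Set (Fin d → ℝ)) (β : ℝ) (f : (Fin d → ℤ) → ℝ) (x : Fin d → ℝ) (r : ℝ) :
    0 ≤ avg K β f x r := div_nonneg (tot_nonneg _ _ _ _) (by positivity)

theorem tot_mono (hK : Body K c0 C0) (f : (Fin d → ℤ) → ℝ) {x x' : Fin d → ℝ} {r r' : ℝ}
    (hr : 0 ≤ r) (hr' : 0 ≤ r') (h : kb K x r ⊆ kb K x' r') : tot K f x r ≤ tot K f x' r' := by
  rw [tot_eq hK f x hr, tot_eq hK f x' hr']
  apply Finset.sum_le_sum_of_subset_of_nonneg _ (fun m _ _ => abs_nonneg _)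
  intro m hm
  rw [Set.Finite.mem_toFinset] at hm ⊢
  exact h hm

theorem cube_le_tot (hK : Body K c0 C0) (f : (Fin d → ℤ) → ℝ) (n : Fin d → ℤ) {R : ℕ} {r : ℝ}
    (hr : 0 ≤ r) (hR : (R : ℝ) ≤ r * c0) :
    S (fun m => |f m|) n R ≤ tot K f (toR n) r := by
  rw [tot_eq hK f _ hr]
  unfold S
  apply Finset.sum_le_sum_of_subset_of_nonneg _ (fun m _ _ => abs_nonneg _)
  intro m hm
  rw [Set.Finite.mem_toFinset]
  rw [mem_cube] at hm
  apply kb_cube hK hr
  intro i
  refine le_trans ?_ hR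
  have h1 := hm i
  have h2 : ((|m i - n i| : ℤ) : ℝ) ≤ R := by exact_mod_cast h1
  push_cast at h2
  exact h2

theorem tot_le_cube (hK : Body K c0 C0) (f : (Fin d → ℤ) → ℝ) {n : Fin d → ℤ} {R : ℕ}
    {x : Fin d → ℝ} {r : ℝ} (hr : 0 ≤ r) (hn : toR n ∈ kb K x r) (hR : 2 * C0 * r ≤ (R : ℝ)) :
    (lat_finite hK x hr).toFinset ⊆ cube n R := by
  intro m hm
  rw [Set.Finite.mem_toFinset] at hm
  rw [mem_cube]
  intro i
  have h1 := kb_outer hK hr hm i
  have h2 := kb_outer hK hr hn i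
  unfold toR at h1 h2
  have h3 : ((|m i - n i| : ℤ) : ℝ) ≤ R := by
    push_cast
    have h4 : (m i : ℝ) - n i = ((m i : ℝ) - x i) - ((n i : ℝ) - x i) := by ring
    rw [h4]
    refine (abs_sub _ _).trans ?_
    linarith
  exact_mod_cast h3

theorem M_nonneg (hK : Body K c0 C0) (hA : Adm K c0 A)
    (hM : ∀ n, IsLUB ((fun p => avg K β f p.1 p.2) '' A n) (M n)) (n : Fin d → ℤ) : 0 ≤ M n :=
  (avg_nonneg K β f (toR n) 0).trans ((hM n).1 ⟨(toR n, 0), hA.center n 0 le_rfl, rfl⟩)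

/-- constant for the large dilates -/
noncomputable def CL (d : ℕ) (V c0 C0 β : ℝ) : ℝ :=
  2 * (6 * 5 ^ d / c0) * (3 * C0) * ((6 * C0) ^ ((d : ℝ) - β) * V ^ (-(1 - β / d)))

/-- constant for the optimality -/
noncomputable def CG (d : ℕ) (c0 C0 β : ℝ) : ℝ := 2 * (12 * C0 / c0) ^ ((d : ℝ) - β)

theorem CG_one (hd : 1 ≤ d) (hK : Body K c0 C0) (hβ1 : β < 1) : 1 ≤ CG d c0 C0 β := by
  unfold CG
  have hd1 : (1 : ℝ) ≤ d := by exact_mod_cast hd
  have h1 := hK.c0pos
  have h2 := hK.c0le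
  have h3 : 1 ≤ 12 * C0 / c0 := by
    rw [le_div_iff₀ h1]; linarith
  have h4 := Real.one_le_rpow h3 (by linarith : 0 ≤ (d : ℝ) - β)
  linarith

theorem large (hd : 1 ≤ d) (hK : Body K c0 C0) (hA : Adm K c0 A) (hβ0 : 0 < β) (hβ1 : β < 1)
    (hM : ∀ n, IsLUB ((fun p => avg K β f p.1 p.2) '' A n) (M n)) {n v : Fin d → ℤ}
    (hv : ∀ i, |v i| ≤ 1) {p : (Fin d → ℝ) × ℝ} (hp : p ∈ A n) (hr : 2 / c0 ≤ p.2)
    (hD : 0 < M n - M (n + v)) (hnear : M n - (M n - M (n + v)) / 2 ≤ avg K β f p.1 p.2) :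
    ∃ ρ : ℕ, 1 ≤ ρ ∧
      M n - M (n + v) ≤ CL d (MeasureTheory.volume K).toReal c0 C0 β *
        ((ρ : ℝ) ^ (β - 1 - d) * S (fun m => |f m|) n ρ) ∧
      ∀ R : ℕ, ρ ≤ R → S (fun m => |f m|) n R ≤
        CG d c0 C0 β * ((R : ℝ) / ρ) ^ ((d : ℝ) - β) * S (fun m => |f m|) n ρ := by
  have hd1 : (1 : ℝ) ≤ d := by exact_mod_cast hd
  have hd0 : (0 : ℝ) < d := by linarith
  obtain ⟨x, r⟩ := p
  simp only at hr hnear
  have hc := hK.c0pos
  have hC0 : 0 < C0 := lt_of_lt_of_le hc hK.c0le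
  have hV := volume_body_pos hK
  set V := (MeasureTheory.volume K).toReal with hVd
  have h2c : 2 / c0 = 1 / c0 + 1 / c0 := by ring
  have h1cpos : 0 < 1 / c0 := by positivity
  have hr0 : 0 < r := lt_of_lt_of_le (by positivity) hr
  have h1c : 1 / c0 ≤ r := by linarith
  have hmemn : toR n ∈ kb K x r := hA.mem n _ hp
  obtain ⟨x', hx', hsub⟩ := hA.enlarge n v hv _ hp
  simp only at hx' hsub
  set γ : ℝ := 1 - β / d with hγ
  have hβd : β / d < 1 := by
    rw [div_lt_one hd0]; linarith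
  have hβd0 : 0 < β / d := by positivity
  have hγ0 : 0 < γ := by rw [hγ]; linarith
  have hγ1 : γ ≤ 1 := by rw [hγ]; linarith
  have hγd : (d : ℝ) * γ = d - β := by rw [hγ]; field_simp
  -- lower bound of the number of points
  have hNlow : (r / 2) ^ d * V ≤ cnt K x r := by
    refine le_trans ?_ (cnt_lower hK x h1c)
    apply mul_le_mul_of_nonneg_right _ hV.le
    apply pow_le_pow_left₀ (by positivity)
    linarith
  set N : ℝ := (cnt K x r : ℝ) with hN
  have hNpos : 0 < N := lt_of_lt_of_le (by positivity) hNlow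
  have hM0 := M_nonneg hK hA hM (n + v)
  have hT0 := tot_nonneg K f x r
  -- comparison with the enlarged dilate
  set E : ℝ := 6 * 5 ^ d / c0 with hE
  have hE0 : 0 < E := by positivity
  have hratio := cnt_ratio hK x x' hr
  rw [← hE, ← hN] at hratio
  have hMv : avg K β f x' (r + 1 / c0) ≤ M (n + v) := (hM (n + v)).1 ⟨_, hx', rfl⟩
  have hN'pos : 0 < (cnt K x' (r + 1 / c0) : ℝ) := by
    refine lt_of_lt_of_le ?_ (cnt_lower hK x' (by linarith : 1 / c0 ≤ r + 1 / c0))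
    have : r + 1 / c0 - 1 / c0 = r := by ring
    rw [this]
    positivity
  have hcmp : avg K β f x r / (1 + E / r) ≤ M (n + v) := by
    refine le_trans ?_ hMv
    unfold avg
    rw [← hγ, ← hN, div_div]
    apply div_le_div₀ (tot_nonneg _ _ _ _)
      (tot_mono hK f hr0.le (by positivity) hsub) (by positivity)
    calc (cnt K x' (r + 1 / c0) : ℝ) ^ γ ≤ (N * (1 + E / r)) ^ γ :=
          Real.rpow_le_rpow hN'pos.le hratio hγ0.le
      _ = N ^ γ * (1 + E / r) ^ γ := Real.mul_rpow hNpos.le (by positivity)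
      _ ≤ N ^ γ * (1 + E / r) := by
          apply mul_le_mul_of_nonneg_left _ (by positivity)
          have h1 : (1 : ℝ) ≤ 1 + E / r := by
            have : 0 < E / r := by positivity
            linarith
          calc (1 + E / r) ^ γ ≤ (1 + E / r) ^ (1 : ℝ) :=
                Real.rpow_le_rpow_of_exponent_le h1 hγ1
            _ = _ := Real.rpow_one _
  have hdiff : avg K β f x r - M (n + v) ≤ E / r * avg K β f x r := by
    have h1 : avg K β f x r * (1 - E / r) ≤ avg K β f x r / (1 + E / r) := by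
      rw [le_div_iff₀ (by positivity)]
      have h2 : (1 - E / r) * (1 + E / r) ≤ 1 := by nlinarith [sq_nonneg (E / r)]
      calc avg K β f x r * (1 - E / r) * (1 + E / r)
          = avg K β f x r * ((1 - E / r) * (1 + E / r)) := by ring
        _ ≤ avg K β f x r * 1 := mul_le_mul_of_nonneg_left h2 (avg_nonneg _ _ _ _ _)
        _ = _ := mul_one _
    linarith
  have hDle : M n - M (n + v) ≤ 2 * (E / r) * avg K β f x r := by linarith
  -- the radius of the cube
  set ρ : ℕ := ⌈2 * C0 * r⌉₊ with hρ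
  have hρ1 : 2 * C0 * r ≤ ρ := Nat.le_ceil _
  have hC0r : 2 ≤ C0 * r := by
    have h3 : c0 * (2 / c0) = 2 := by field_simp
    calc (2 : ℝ) = c0 * (2 / c0) := h3.symm
      _ ≤ C0 * r := mul_le_mul hK.c0le hr (by positivity) hC0.le
  have hρ2 : (ρ : ℝ) ≤ 3 * C0 * r := by
    have := Nat.ceil_lt_add_one (a := 2 * C0 * r) (by positivity)
    rw [← hρ] at this
    linarith
  have hρpos : (0 : ℝ) < ρ := lt_of_lt_of_le (by positivity) hρ1
  have hρ1' : 1 ≤ ρ := by exact_mod_cast (Nat.cast_pos.mp hρpos)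
  have hS0 : 0 ≤ S (fun m => |f m|) n ρ := S_nonneg (fun m => abs_nonneg _) _ _
  have hTS : tot K f x r ≤ S (fun m => |f m|) n ρ := by
    rw [tot_eq hK f x hr0.le]
    exact Finset.sum_le_sum_of_subset_of_nonneg (tot_le_cube hK f hr0.le hmemn hρ1)
      (fun m _ _ => abs_nonneg _)
  have hNγ : (r / 2) ^ ((d : ℝ) - β) * V ^ γ ≤ N ^ γ := by
    calc (r / 2) ^ ((d : ℝ) - β) * V ^ γ = ((r / 2) ^ d * V) ^ γ := by
          rw [Real.mul_rpow (by positivity) hV.le, ← Real.rpow_natCast (r / 2) d,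
            ← Real.rpow_mul (by positivity), hγd]
      _ ≤ N ^ γ := Real.rpow_le_rpow (by positivity) hNlow hγ0.le
  have havg : avg K β f x r ≤ S (fun m => |f m|) n ρ / ((r / 2) ^ ((d : ℝ) - β) * V ^ γ) := by
    unfold avg
    rw [← hγ, ← hN]
    exact div_le_div₀ hS0 hTS (by positivity) hNγ
  refine ⟨ρ, hρ1', ?_, ?_⟩
  · refine hDle.trans ?_
    have h5 : 2 * (E / r) ≤ 2 * E * (3 * C0) / ρ := by
      rw [le_div_iff₀ hρpos]
      calc 2 * (E / r) * ρ ≤ 2 * (E / r) * (3 * C0 * r) :=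
            mul_le_mul_of_nonneg_left hρ2 (by positivity)
        _ = 2 * E * (3 * C0) := by field_simp
    have h6 : ((ρ : ℝ) / (6 * C0)) ^ ((d : ℝ) - β) ≤ (r / 2) ^ ((d : ℝ) - β) := by
      apply Real.rpow_le_rpow (by positivity) _ (by linarith)
      rw [div_le_iff₀ (by positivity)]
      calc (ρ : ℝ) ≤ 3 * C0 * r := hρ2
        _ = r / 2 * (6 * C0) := by ring
    have h7 : avg K β f x r ≤ S (fun m => |f m|) n ρ *
        ((6 * C0) ^ ((d : ℝ) - β) * V ^ (-γ) * (ρ : ℝ) ^ (-((d : ℝ) - β))) := by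
      refine havg.trans ?_
      rw [div_eq_mul_inv]
      apply mul_le_mul_of_nonneg_left _ hS0
      rw [mul_inv, Real.rpow_neg hV.le, Real.rpow_neg hρpos.le]
      calc ((r / 2) ^ ((d : ℝ) - β))⁻¹ * (V ^ γ)⁻¹
          ≤ (((ρ : ℝ) / (6 * C0)) ^ ((d : ℝ) - β))⁻¹ * (V ^ γ)⁻¹ := by
            apply mul_le_mul_of_nonneg_right _ (by positivity)
            exact inv_anti₀ (by positivity) h6
        _ = (6 * C0) ^ ((d : ℝ) - β) * (V ^ γ)⁻¹ * ((ρ : ℝ) ^ ((d : ℝ) - β))⁻¹ := by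
            rw [Real.div_rpow hρpos.le (by positivity), inv_div]
            ring
    calc 2 * (E / r) * avg K β f x r
        ≤ (2 * E * (3 * C0) / ρ) * (S (fun m => |f m|) n ρ *
          ((6 * C0) ^ ((d : ℝ) - β) * V ^ (-γ) * (ρ : ℝ) ^ (-((d : ℝ) - β)))) :=
          mul_le_mul h5 h7 (avg_nonneg _ _ _ _ _) (by positivity)
      _ = CL d V c0 C0 β * (((ρ : ℝ) ^ (-((d : ℝ) - β)) * (ρ : ℝ)⁻¹) *
            S (fun m => |f m|) n ρ) := by
          unfold CL
          rw [← hE, ← hγ]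
          ring
      _ = _ := by
          have h8 : (ρ : ℝ) ^ (-((d : ℝ) - β)) * (ρ : ℝ)⁻¹ = (ρ : ℝ) ^ (β - 1 - d) := by
            rw [← Real.rpow_neg_one, ← Real.rpow_add hρpos]
            congr 1
            ring
          rw [h8]
  · intro R hR
    have hR' : (ρ : ℝ) ≤ R := by exact_mod_cast hR
    have hRpos : (0 : ℝ) < R := lt_of_lt_of_le hρpos hR'
    have hR1 : (1 : ℝ) ≤ R := by
      have : 1 ≤ R := hρ1'.trans hR
      exact_mod_cast this
    set r' : ℝ := R / c0 with hr'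
    have hr'1 : 1 / c0 ≤ r' := by rw [hr']; gcongr
    have hr'0 : 0 < r' := by positivity
    have h1 : S (fun m => |f m|) n R ≤ tot K f (toR n) r' :=
      cube_le_tot hK f n hr'0.le (by rw [hr']; field_simp; exact le_rfl)
    have h2 : avg K β f (toR n) r' ≤ M n := (hM n).1 ⟨_, hA.center n r' hr'0.le, rfl⟩
    have h3 : M n ≤ 2 * avg K β f x r := by linarith
    have hN'' := cnt_upper hK (toR n) hr'0.le
    have hN''0 : (0 : ℝ) < cnt K (toR n) r' := by
      have h4 : (1 : ℝ) ≤ cnt K (toR n) r' := by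
        have h5 : n ∈ lat K (toR n) r' := kb_cube hK hr'0.le (fun i => by
          simp; positivity)
        have h6 : 0 < cnt K (toR n) r' := by
          unfold cnt
          rw [Set.ncard_pos (lat_finite hK _ hr'0.le)]
          exact ⟨n, h5⟩
        exact_mod_cast h6
      linarith
    have h4 : tot K f (toR n) r' ≤ (cnt K (toR n) r' : ℝ) ^ γ * M n := by
      have h5 : avg K β f (toR n) r' = tot K f (toR n) r' / (cnt K (toR n) r' : ℝ) ^ γ := rfl
      rw [h5, div_le_iff₀ (by positivity)] at h2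
      linarith
    have h5 : (cnt K (toR n) r' : ℝ) ^ γ ≤ (2 * r') ^ ((d : ℝ) - β) * V ^ γ := by
      calc (cnt K (toR n) r' : ℝ) ^ γ ≤ ((2 * r') ^ d * V) ^ γ := by
            apply Real.rpow_le_rpow hN''0.le _ hγ0.le
            refine hN''.trans ?_
            apply mul_le_mul_of_nonneg_right _ hV.le
            apply pow_le_pow_left₀ (by positivity)
            linarith
        _ = _ := by
            rw [Real.mul_rpow (by positivity) hV.le, ← Real.rpow_natCast (2 * r') d,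
              ← Real.rpow_mul (by positivity), hγd]
    calc S (fun m => |f m|) n R ≤ (cnt K (toR n) r' : ℝ) ^ γ * M n := h1.trans h4
      _ ≤ ((2 * r') ^ ((d : ℝ) - β) * V ^ γ) *
          (2 * (S (fun m => |f m|) n ρ / ((r / 2) ^ ((d : ℝ) - β) * V ^ γ))) := by
          apply mul_le_mul h5 (by linarith) (M_nonneg hK hA hM n) (by positivity)
      _ = 2 * (4 * r' / r) ^ ((d : ℝ) - β) * S (fun m => |f m|) n ρ := by
          have h6 : (2 * r') ^ ((d : ℝ) - β) = (4 * r' / r) ^ ((d : ℝ) - β) *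
              (r / 2) ^ ((d : ℝ) - β) := by
            rw [← Real.mul_rpow (by positivity) (by positivity)]
            congr 1
            field_simp
            ring
          rw [h6]
          field_simp
      _ ≤ 2 * (12 * C0 / c0 * (R / ρ)) ^ ((d : ℝ) - β) * S (fun m => |f m|) n ρ := by
          apply mul_le_mul_of_nonneg_right _ hS0
          apply mul_le_mul_of_nonneg_left _ (by norm_num)
          apply Real.rpow_le_rpow (by positivity) _ (by linarith)
          rw [hr', div_le_iff₀ hr0]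
          have h7 : 1 ≤ 3 * C0 * r / ρ := by rw [le_div_iff₀ hρpos]; linarith
          calc 4 * (R / c0) = 4 * (R / c0) * 1 := by ring
            _ ≤ 4 * (R / c0) * (3 * C0 * r / ρ) := mul_le_mul_of_nonneg_left h7 (by positivity)
            _ = 12 * C0 / c0 * (R / ρ) * r := by ring
      _ = _ := by
          unfold CG
          rw [Real.mul_rpow (by positivity) (by positivity)]
          ring

end local_est

end Pool.Agent.Helper383.FM
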