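import Pool.Agent.Helper383.FM.Max

/-!
# Small dilates, and the sum over all points in one direction
-/

set_option autoImplicit false

open Finset

namespace Pool.Agent.Helper383.FM

variable {d : ℕ}

section local_est

variable {K : Set (Fin d → ℝ)} {c0 C0 : ℝ} {A : (Fin d → ℤ) → Set ((Fin d → ℝ) × ℝ)}
  {β : ℝ} {f : (Fin d → ℤ) → ℝ} {M : (Fin d → ℤ) → ℝ}

theorem lat_shift (K : Set (Fin d → ℝ)) (x : Fin d → ℝ) (r : ℝ) (v : Fin d → ℤ) :
    lat K (x + toR v) r = (fun m => m + v) '' lat K x r := by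
  ext m
  have h : ∀ m' : Fin d → ℤ, toR (m' + v) = toR m' + toR v := by
    intro m'
    funext i
    simp [toR]
  constructor
  · intro hm
    refine ⟨m - v, ?_, by simp⟩
    have h1 : toR m = toR (m - v) + toR v := by rw [← h]; simp
    have h2 : toR m ∈ kb K (x + toR v) r := hm
    rw [h1, kb_shift] at h2
    exact h2
  · rintro ⟨m', hm', rfl⟩
    have h2 : toR m' ∈ kb K x r := hm'
    have h3 : toR (m' + v) ∈ kb K (x + toR v) r := by rw [h, kb_shift]; exact h2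
    exact h3

theorem cnt_shift (K : Set (Fin d → ℝ)) (x : Fin d → ℝ) (r : ℝ) (v : Fin d → ℤ) :
    cnt K (x + toR v) r = cnt K x r := by
  unfold cnt
  rw [lat_shift]
  exact Set.ncard_image_of_injective _ (add_left_injective v)

theorem tot_shift (K : Set (Fin d → ℝ)) (f : (Fin d → ℤ) → ℝ) (x : Fin d → ℝ) (r : ℝ)
    (v : Fin d → ℤ) : tot K f (x + toR v) r = tot K (fun m => f (m + v)) x r := by
  unfold tot
  rw [lat_shift]
  exact tsum_image (f := fun m => |f m|) ((add_left_injective v).injOn)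

theorem small (hK : Body K c0 C0) (hA : Adm K c0 A) (hγ : 0 ≤ 1 - β / d)
    (hM : ∀ n, IsLUB ((fun p => avg K β f p.1 p.2) '' A n) (M n)) {n v : Fin d → ℤ}
    {p : (Fin d → ℝ) × ℝ} (hp : p ∈ A n) (hr : p.2 < 2 / c0)
    (hnear : M n - (M n - M (n + v)) / 2 ≤ avg K β f p.1 p.2) :
    M n - M (n + v) ≤ 2 * ∑ m ∈ cube n ⌈4 * C0 / c0⌉₊, |(|f m| - |f (m + v)|)| := by
  obtain ⟨x, r⟩ := p
  simp only at hr hnear
  have hc := hK.c0pos
  have hC0 : 0 < C0 := lt_of_lt_of_le hc hK.c0le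
  have hr0 : 0 ≤ r := hA.nonneg n _ hp
  have hmemn : toR n ∈ kb K x r := hA.mem n _ hp
  have hv := hA.shift n v _ hp
  simp only at hv
  have h1 : avg K β f (x + toR v) r ≤ M (n + v) := (hM (n + v)).1 ⟨_, hv, rfl⟩
  have hN1 : (1 : ℝ) ≤ cnt K x r := by
    have h5 : n ∈ lat K x r := hmemn
    have h6 : 0 < cnt K x r := by
      unfold cnt
      rw [Set.ncard_pos (lat_finite hK _ hr0)]
      exact ⟨n, h5⟩
    exact_mod_cast h6
  have h2 : avg K β f x r - avg K β f (x + toR v) r ≤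
      ∑ m ∈ cube n ⌈4 * C0 / c0⌉₊, |(|f m| - |f (m + v)|)| := by
    unfold avg
    rw [cnt_shift, tot_shift, ← sub_div, tot_eq hK f x hr0, tot_eq hK _ x hr0,
      ← Finset.sum_sub_distrib]
    have h3 : (1 : ℝ) ≤ (cnt K x r : ℝ) ^ (1 - β / d) := Real.one_le_rpow hN1 hγ
    have h4 : ∑ m ∈ (lat_finite hK x hr0).toFinset, (|f m| - |f (m + v)|) ≤
        ∑ m ∈ cube n ⌈4 * C0 / c0⌉₊, |(|f m| - |f (m + v)|)| := by
      refine (Finset.sum_le_sum fun m _ => le_abs_self _).trans ?_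
      apply Finset.sum_le_sum_of_subset_of_nonneg _ (fun m _ _ => abs_nonneg _)
      apply tot_le_cube hK f hr0 hmemn
      refine le_trans ?_ (Nat.le_ceil _)
      have : 4 * C0 / c0 = 2 * C0 * (2 / c0) := by ring
      rw [this]
      exact mul_le_mul_of_nonneg_left hr.le (by positivity)
    have h5 : 0 ≤ ∑ m ∈ cube n ⌈4 * C0 / c0⌉₊, |(|f m| - |f (m + v)|)| :=
      Finset.sum_nonneg fun m _ => abs_nonneg _
    rw [div_le_iff₀ (by linarith)]
    calc _ ≤ ∑ m ∈ cube n ⌈4 * C0 / c0⌉₊, |(|f m| - |f (m + v)|)| := h4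
      _ ≤ _ := le_mul_of_one_le_right h5 h3
  linarith

/-- constant for one direction -/
noncomputable def CD (d : ℕ) (V c0 C0 β α a : ℝ) : ℝ :=
  2 * ((2 * ⌈4 * C0 / c0⌉₊ + 1) ^ d * a ^ α) +
    CL d V c0 C0 β * (CG d c0 C0 β * 3 ^ d * CS d β (CG d c0 C0 β) α)

theorem CL_nonneg (d : ℕ) {V c0 C0 β : ℝ} (hV : 0 < V) (hc : 0 < c0) (hC : 0 < C0) :
    0 ≤ CL d V c0 C0 β := by unfold CL; positivity

theorem Ca_nonneg {α : ℝ} (hα0 : 0 ≤ α) (hα1 : α < 1) : 0 ≤ Ca α := by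
  unfold Ca
  have h1 : (2 : ℝ) ^ (-α) ≤ 1 := Real.rpow_le_one_of_one_le_of_nonpos (by norm_num) (by linarith)
  have h2 : (2 : ℝ) ^ (α - 1) ≤ 1 :=
    Real.rpow_le_one_of_one_le_of_nonpos (by norm_num) (by linarith)
  have h3 : 0 ≤ (1 - (2 : ℝ) ^ (-α))⁻¹ := inv_nonneg.mpr (by linarith)
  have h4 : 0 ≤ (1 - (2 : ℝ) ^ (α - 1))⁻¹ := inv_nonneg.mpr (by linarith)
  linarith

theorem CS_nonneg (hd : 1 ≤ d) {β Γ α : ℝ} (hβ0 : 0 < β) (hΓ : 1 ≤ Γ) (hα0 : 0 ≤ α)
    (hα1 : α < 1) : 0 ≤ CS d β Γ α := by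
  unfold CS
  have h1 := CK_nonneg hd hβ0 hΓ
  have h2 := Ca_nonneg hα0 hα1
  positivity

/-- interchange of the sum over the points and the sum over the neighbouring points -/
theorem sum_cube_sum (h : (Fin d → ℤ) → ℝ) (hh : ∀ m, 0 ≤ h m) {G : ℝ}
    (hG : ∀ Z : Finset (Fin d → ℤ), ∑ m ∈ Z, h m ≤ G) (Z : Finset (Fin d → ℤ)) (R : ℕ) :
    ∑ n ∈ Z, ∑ m ∈ cube n R, h m ≤ (2 * R + 1) ^ d * G := by
  classical
  have h1 : ∀ n : Fin d → ℤ, ∑ m ∈ cube n R, h m = ∑ u ∈ cube 0 R, h (n + u) := by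
    intro n
    symm
    apply Finset.sum_bij (fun u _ => n + u)
    · intro u hu
      rw [mem_cube] at hu ⊢
      intro i
      simpa using hu i
    · intro u _ u' _ huu
      exact add_left_cancel huu
    · intro m hm
      refine ⟨m - n, ?_, by simp⟩
      rw [mem_cube] at hm ⊢
      intro i
      simpa using hm i
    · intro u _; rfl
  simp only [h1]
  rw [Finset.sum_comm]
  calc ∑ u ∈ cube 0 R, ∑ n ∈ Z, h (n + u) ≤ ∑ _u ∈ cube (0 : Fin d → ℤ) R, G := by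
        refine Finset.sum_le_sum fun u _ => ?_
        rw [← Finset.sum_image (f := h) (g := fun n => n + u) (s := Z)
          ((add_left_injective u).injOn)]
        exact hG _
    _ = (2 * R + 1) ^ d * G := by
        rw [Finset.sum_const, nsmul_eq_mul, card_cube]
        push_cast
        ring

theorem dir_sum (hd : 1 ≤ d) (hK : Body K c0 C0) (hA : Adm K c0 A) (hβ0 : 0 < β) (hβ1 : β < 1)
    (hM : ∀ n, IsLUB ((fun p => avg K β f p.1 p.2) '' A n) (M n)) {v : Fin d → ℤ}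
    (hv : ∀ i, |v i| ≤ 1) {G F a : ℝ} (ha : 0 ≤ a)
    (hGv : ∀ Z : Finset (Fin d → ℤ), ∑ m ∈ Z, |(|f m| - |f (m + v)|)| ≤ G)
    (hGG : ∀ Z : Finset ((Fin d → ℤ) × Fin d), ∑ p ∈ Z, |(|f (p.1 + e p.2)| - |f p.1|)| ≤ G)
    (hFF : ∀ Z : Finset (Fin d → ℤ), ∑ m ∈ Z, |f m| ≤ F) (hGF : G ≤ a * F)
    {α : ℝ} (hα0 : 0 ≤ α) (hαβ : α ≤ β) {q : ℝ} (hq : q = d / (d - β + α))
    (Z : Finset (Fin d → ℤ)) :
    ∑ n ∈ Z, (max (M n - M (n + v)) 0) ^ q ≤
      (CD d (MeasureTheory.volume K).toReal c0 C0 β α a * (G ^ (1 - α) * F ^ α)) ^ q := by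
  classical
  have hd1 : (1 : ℝ) ≤ d := by exact_mod_cast hd
  have hd0 : (0 : ℝ) < d := by linarith
  have hα1 : α < 1 := by linarith
  have hden : 0 < (d : ℝ) - β + α := by linarith
  have hq1 : 1 ≤ q := by
    rw [hq, le_div_iff₀ hden]; linarith
  have hq0 : 0 < q := by linarith
  have hc := hK.c0pos
  have hC0 : 0 < C0 := lt_of_lt_of_le hc hK.c0le
  have hG0 : 0 ≤ G := by simpa using hGv ∅
  have hF0 : 0 ≤ F := by simpa using hFF ∅
  have hγ0 : 0 ≤ 1 - β / d := by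
    have : β / d < 1 := by rw [div_lt_one hd0]; linarith
    linarith
  have hV := volume_body_pos hK
  set V := (MeasureTheory.volume K).toReal with hVd
  have hCL := CL_nonneg d (β := β) hV hc hC0
  have hΓ := CG_one hd hK hβ1
  set Γ := CG d c0 C0 β with hΓd
  have hCS := CS_nonneg hd hβ0 hΓ hα0 hα1
  set X := G ^ (1 - α) * F ^ α with hX
  have hX0 : 0 ≤ X := by positivity
  have hGX : G ≤ a ^ α * X := by
    calc G = G ^ (1 - α) * G ^ α := by
          rcases hG0.eq_or_lt with h | h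
          · rw [← h, Real.zero_rpow (by linarith)]; simp
          · rw [← Real.rpow_add h]; simp
      _ ≤ G ^ (1 - α) * (a * F) ^ α := by
          apply mul_le_mul_of_nonneg_left _ (by positivity)
          exact Real.rpow_le_rpow hG0 hGF hα0
      _ = a ^ α * X := by
          rw [Real.mul_rpow ha hF0, hX]; ring
  set R0 : ℕ := ⌈4 * C0 / c0⌉₊ with hR0
  set T : (Fin d → ℤ) → ℝ := fun n => ∑ m ∈ cube n R0, |(|f m| - |f (m + v)|)| with hT
  set g : (Fin d → ℤ) → ℝ := fun m => |f m| with hg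
  -- the dichotomy
  have hdich : ∀ n, 0 < M n - M (n + v) → M n - M (n + v) ≤ 2 * T n ∨
      ∃ ρ : ℕ, 1 ≤ ρ ∧ M n - M (n + v) ≤ CL d V c0 C0 β * ((ρ : ℝ) ^ (β - 1 - d) * S g n ρ) ∧
        ∀ R : ℕ, ρ ≤ R → S g n R ≤ Γ * ((R : ℝ) / ρ) ^ ((d : ℝ) - β) * S g n ρ := by
    intro n hn
    obtain ⟨_, ⟨p, hp, rfl⟩, hlt⟩ := (lt_isLUB_iff (hM n)).mp
      (show M n - (M n - M (n + v)) / 2 < M n by linarith)
    simp only at hlt
    rcases lt_or_ge p.2 (2 / c0) with h | h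
    · left
      exact small hK hA hγ0 hM hp h hlt.le
    · right
      exact large hd hK hA hβ0 hβ1 hM hv hp h hn hlt.le
  have hdich' : ∀ n, ∃ ρ : ℕ, (0 < M n - M (n + v) ∧ ¬ (M n - M (n + v) ≤ 2 * T n)) →
      1 ≤ ρ ∧ M n - M (n + v) ≤ CL d V c0 C0 β * ((ρ : ℝ) ^ (β - 1 - d) * S g n ρ) ∧
        ∀ R : ℕ, ρ ≤ R → S g n R ≤ Γ * ((R : ℝ) / ρ) ^ ((d : ℝ) - β) * S g n ρ := by
    intro n
    by_cases h : 0 < M n - M (n + v) ∧ ¬ (M n - M (n + v) ≤ 2 * T n)
    · rcases hdich n h.1 with h1 | ⟨ρ, h1⟩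
      · exact absurd h1 h.2
      · exact ⟨ρ, fun _ => h1⟩
    · exact ⟨0, fun h' => absurd h' h⟩
  choose ρ hρ using hdich'
  set Z1 := Z.filter (fun n => M n - M (n + v) ≤ 2 * T n) with hZ1
  set Z2 := Z.filter (fun n => ¬ (M n - M (n + v) ≤ 2 * T n)) with hZ2
  have hsplit := Finset.sum_filter_add_sum_filter_not Z (fun n => M n - M (n + v) ≤ 2 * T n)
    (fun n => (max (M n - M (n + v)) 0) ^ q)
  have hT0 : ∀ n, 0 ≤ T n := fun n => Finset.sum_nonneg fun m _ => abs_nonneg _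
  have hsum1 : ∑ n ∈ Z1, (max (M n - M (n + v)) 0) ^ q ≤
      (2 * ((2 * R0 + 1) ^ d * a ^ α) * X) ^ q := by
    calc ∑ n ∈ Z1, (max (M n - M (n + v)) 0) ^ q ≤ ∑ n ∈ Z1, (2 * T n) ^ q := by
          refine Finset.sum_le_sum fun n hn => ?_
          apply Real.rpow_le_rpow (le_max_right _ _) _ hq0.le
          exact max_le (Finset.mem_filter.mp hn).2 (by have := hT0 n; positivity)
      _ ≤ (∑ n ∈ Z1, 2 * T n) ^ q := sum_rpow_le _ _ (fun n _ => by have := hT0 n; positivity) hq1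
      _ ≤ _ := by
          apply Real.rpow_le_rpow _ _ hq0.le
          · exact Finset.sum_nonneg fun n _ => by have := hT0 n; positivity
          · rw [← Finset.mul_sum]
            have h1 := sum_cube_sum (fun m => |(|f m| - |f (m + v)|)|) (fun m => abs_nonneg _) hGv
              Z1 R0
            have h2 : (2 * (R0 : ℝ) + 1) ^ d * G ≤ (2 * (R0 : ℝ) + 1) ^ d * (a ^ α * X) :=
              mul_le_mul_of_nonneg_left hGX (by positivity)
            calc 2 * ∑ n ∈ Z1, T n ≤ 2 * ((2 * (R0 : ℝ) + 1) ^ d * (a ^ α * X)) :=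
                  mul_le_mul_of_nonneg_left (h1.trans h2) (by norm_num)
              _ = _ := by ring
  have hsum2 : ∑ n ∈ Z2, (max (M n - M (n + v)) 0) ^ q ≤
      (CL d V c0 C0 β * (Γ * 3 ^ d * CS d β Γ α) * X) ^ q := by
    set Z3 := Z2.filter (fun n => 0 < M n - M (n + v)) with hZ3
    have hprop : ∀ n ∈ Z3, 1 ≤ ρ n ∧
        M n - M (n + v) ≤ CL d V c0 C0 β * ((ρ n : ℝ) ^ (β - 1 - d) * S g n (ρ n)) ∧
        ∀ R : ℕ, ρ n ≤ R → S g n R ≤ Γ * ((R : ℝ) / ρ n) ^ ((d : ℝ) - β) * S g n (ρ n) := by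
      intro n hn
      obtain ⟨hn1, hn2⟩ := Finset.mem_filter.mp hn
      exact hρ n ⟨hn2, (Finset.mem_filter.mp hn1).2⟩
    have hgood : Good β Γ g ρ Z3 :=
      ⟨fun m => abs_nonneg _, fun n hn => (hprop n hn).1, fun n hn => (hprop n hn).2.2⟩
    have hcore := core_sum hd hβ0 hβ1 hΓ hgood (G := G) (F := F) hGG hFF hα0 hαβ hq
    have hSρ : ∀ n, 0 ≤ (ρ n : ℝ) ^ (β - 1 - d) * S g n (ρ n) := fun n =>
      mul_nonneg (by positivity) (S_nonneg (fun m => abs_nonneg _) _ _)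
    calc ∑ n ∈ Z2, (max (M n - M (n + v)) 0) ^ q = ∑ n ∈ Z3, (max (M n - M (n + v)) 0) ^ q := by
          symm
          apply Finset.sum_subset (Finset.filter_subset _ _)
          intro n hn hn3
          have h1 : ¬ (0 < M n - M (n + v)) := fun h => hn3 (Finset.mem_filter.mpr ⟨hn, h⟩)
          rw [max_eq_right (by linarith), Real.zero_rpow hq0.ne']
      _ ≤ ∑ n ∈ Z3, (CL d V c0 C0 β * ((ρ n : ℝ) ^ (β - 1 - d) * S g n (ρ n))) ^ q := by
          refine Finset.sum_le_sum fun n hn => ?_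
          apply Real.rpow_le_rpow (le_max_right _ _) _ hq0.le
          exact max_le (hprop n hn).2.1 (mul_nonneg hCL (hSρ n))
      _ = CL d V c0 C0 β ^ q * ∑ n ∈ Z3, ((ρ n : ℝ) ^ (β - 1 - d) * S g n (ρ n)) ^ q := by
          rw [Finset.mul_sum]
          refine Finset.sum_congr rfl fun n _ => ?_
          rw [Real.mul_rpow hCL (hSρ n)]
      _ ≤ CL d V c0 C0 β ^ q * (Γ * 3 ^ d * (CS d β Γ α * X)) ^ q :=
          mul_le_mul_of_nonneg_left hcore (by positivity)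
      _ = _ := by
          rw [← Real.mul_rpow hCL (by positivity)]
          congr 1
          ring
  rw [← hsplit]
  refine (add_le_add hsum1 hsum2).trans ?_
  refine (Real.add_rpow_le_rpow_add (by positivity) (by positivity) hq1).trans ?_
  apply le_of_eq
  congr 1
  unfold CD
  rw [← hR0, ← hΓd]
  ring

end local_est

end Pool.Agent.Helper383.FM
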