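import Pool.Agent.Helper383.FM.Key2

/-!
# Summation over all points
-/

set_option autoImplicit false

open MeasureTheory Finset

namespace Pool.Agent.Helper383.FM

variable {d : ℕ}

theorem geo_sum (T : Finset ℕ) (φ : ℕ → ℕ) (hφ : Set.InjOn φ (T : Set ℕ)) {θ : ℝ} (h0 : 0 ≤ θ)
    (h1 : θ < 1) : ∑ k ∈ T, θ ^ φ k ≤ (1 - θ)⁻¹ := by
  classical
  rw [← Finset.sum_image (f := fun i : ℕ => θ ^ i) hφ, ← tsum_geometric_of_lt_one h0 h1]
  exact (summable_geometric_of_lt_one h0 h1).sum_le_tsum _ (fun i _ => by positivity)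

/-- constant of the geometric sum -/
noncomputable def Ca (α : ℝ) : ℝ := (1 - (2 : ℝ) ^ (-α))⁻¹ + (1 - (2 : ℝ) ^ (α - 1))⁻¹

theorem geo_min {α : ℝ} (hα0 : 0 < α) (hα1 : α < 1) (J : Finset ℕ) {A D : ℝ} (hA : 0 ≤ A)
    (hD : 0 ≤ D) :
    ∑ k ∈ J, ((2 : ℝ) ^ k) ^ α * min A (D / 2 ^ k) ≤ Ca α * (A ^ (1 - α) * D ^ α) := by
  classical
  have ht1 : (2 : ℝ) ^ (-α) < 1 := Real.rpow_lt_one_of_one_lt_of_neg (by norm_num) (by linarith)
  have ht2 : (2 : ℝ) ^ (α - 1) < 1 := Real.rpow_lt_one_of_one_lt_of_neg (by norm_num) (by linarith)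
  have hs1 : 0 < (1 - (2 : ℝ) ^ (-α))⁻¹ := inv_pos.mpr (by linarith)
  have hs2 : 0 < (1 - (2 : ℝ) ^ (α - 1))⁻¹ := inv_pos.mpr (by linarith)
  have hCa : 0 < Ca α := by unfold Ca; linarith
  rcases hA.eq_or_lt with hA0 | hA0
  · rw [← hA0]
    have : ∀ k ∈ J, ((2 : ℝ) ^ k) ^ α * min 0 (D / 2 ^ k) = 0 := by
      intro k _
      rw [min_eq_left (by positivity), mul_zero]
    rw [Finset.sum_eq_zero this, Real.zero_rpow (by linarith)]
    simp
  rcases hD.eq_or_lt with hD0 | hD0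
  · rw [← hD0]
    have : ∀ k ∈ J, ((2 : ℝ) ^ k) ^ α * min A (0 / 2 ^ k) = 0 := by
      intro k _
      rw [zero_div, min_eq_right hA, mul_zero]
    rw [Finset.sum_eq_zero this, Real.zero_rpow (by linarith)]
    simp
  set x : ℝ := D / A with hx
  have hx0 : 0 < x := div_pos hD0 hA0
  have hDx : D = A * x := by rw [hx]; field_simp
  have hsplit := Finset.sum_filter_add_sum_filter_not J (fun k : ℕ => (2 : ℝ) ^ k ≤ x)
    (fun k => ((2 : ℝ) ^ k) ^ α * min A (D / 2 ^ k))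
  rw [← hsplit]
  have hbase : A ^ (1 - α) * D ^ α = A * x ^ α := by
    rw [hDx, Real.mul_rpow hA0.le hx0.le, ← mul_assoc, ← Real.rpow_add hA0]
    simp
  rw [hbase]
  have hpart1 : ∑ k ∈ J.filter (fun k : ℕ => (2 : ℝ) ^ k ≤ x),
      ((2 : ℝ) ^ k) ^ α * min A (D / 2 ^ k) ≤ (1 - (2 : ℝ) ^ (-α))⁻¹ * (A * x ^ α) := by
    set J1 := J.filter (fun k : ℕ => (2 : ℝ) ^ k ≤ x) with hJ1
    rcases J1.eq_empty_or_nonempty with hemp | hne
    · rw [hemp, Finset.sum_empty]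
      positivity
    obtain ⟨j, hj, hmax⟩ := Finset.exists_max_image J1 id hne
    have hjx : (2 : ℝ) ^ j ≤ x := (Finset.mem_filter.mp hj).2
    calc ∑ k ∈ J1, ((2 : ℝ) ^ k) ^ α * min A (D / 2 ^ k)
        ≤ ∑ k ∈ J1, (A * x ^ α) * ((2 : ℝ) ^ (-α)) ^ (j - k) := by
          refine Finset.sum_le_sum fun k hk => ?_
          have hkj : k ≤ j := hmax k hk
          have h1 : ((2 : ℝ) ^ k) ^ α = ((2 : ℝ) ^ j) ^ α * ((2 : ℝ) ^ (-α)) ^ (j - k) := by
            rw [← Real.rpow_natCast, ← Real.rpow_natCast, ← Real.rpow_natCast,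
              ← Real.rpow_mul (by norm_num), ← Real.rpow_mul (by norm_num),
              ← Real.rpow_mul (by norm_num), ← Real.rpow_add (by norm_num), Nat.cast_sub hkj]
            congr 1
            ring
          have h2 : ((2 : ℝ) ^ j) ^ α ≤ x ^ α := Real.rpow_le_rpow (by positivity) hjx hα0.le
          calc ((2 : ℝ) ^ k) ^ α * min A (D / 2 ^ k) ≤ ((2 : ℝ) ^ k) ^ α * A := by
                apply mul_le_mul_of_nonneg_left (min_le_left _ _) (by positivity)
            _ = ((2 : ℝ) ^ j) ^ α * ((2 : ℝ) ^ (-α)) ^ (j - k) * A := by rw [h1]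
            _ ≤ x ^ α * ((2 : ℝ) ^ (-α)) ^ (j - k) * A := by gcongr
            _ = _ := by ring
      _ = (A * x ^ α) * ∑ k ∈ J1, ((2 : ℝ) ^ (-α)) ^ (j - k) := by rw [Finset.mul_sum]
      _ ≤ (A * x ^ α) * (1 - (2 : ℝ) ^ (-α))⁻¹ := by
          apply mul_le_mul_of_nonneg_left _ (by positivity)
          apply geo_sum J1 (fun k => j - k) _ (by positivity) ht1
          intro k hk k' hk' hkk
          have h3 : k ≤ j := hmax k (by exact_mod_cast hk)
          have h4 : k' ≤ j := hmax k' (by exact_mod_cast hk')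
          simp only at hkk
          omega
      _ = _ := by ring
  have hpart2 : ∑ k ∈ J.filter (fun k : ℕ => ¬ (2 : ℝ) ^ k ≤ x),
      ((2 : ℝ) ^ k) ^ α * min A (D / 2 ^ k) ≤ (1 - (2 : ℝ) ^ (α - 1))⁻¹ * (A * x ^ α) := by
    set J2 := J.filter (fun k : ℕ => ¬ (2 : ℝ) ^ k ≤ x) with hJ2
    rcases J2.eq_empty_or_nonempty with hemp | hne
    · rw [hemp, Finset.sum_empty]
      positivity
    obtain ⟨j, hj, hmin⟩ := Finset.exists_min_image J2 id hne
    have hjx : x < (2 : ℝ) ^ j := not_le.mp (Finset.mem_filter.mp hj).2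
    calc ∑ k ∈ J2, ((2 : ℝ) ^ k) ^ α * min A (D / 2 ^ k)
        ≤ ∑ k ∈ J2, (A * x ^ α) * ((2 : ℝ) ^ (α - 1)) ^ (k - j) := by
          refine Finset.sum_le_sum fun k hk => ?_
          have hkj : j ≤ k := hmin k hk
          have h1 : ((2 : ℝ) ^ k) ^ (α - 1) = ((2 : ℝ) ^ j) ^ (α - 1) *
              ((2 : ℝ) ^ (α - 1)) ^ (k - j) := by
            rw [← Real.rpow_natCast, ← Real.rpow_natCast, ← Real.rpow_natCast,
              ← Real.rpow_mul (by norm_num), ← Real.rpow_mul (by norm_num),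
              ← Real.rpow_mul (by norm_num), ← Real.rpow_add (by norm_num), Nat.cast_sub hkj]
            congr 1
            ring
          have h2 : ((2 : ℝ) ^ j) ^ (α - 1) ≤ x ^ (α - 1) :=
            Real.rpow_le_rpow_of_nonpos hx0 hjx.le (by linarith)
          have h5 : ((2 : ℝ) ^ k) ^ α = ((2 : ℝ) ^ k) ^ (α - 1) * 2 ^ k := by
            have : ((2 : ℝ) ^ k) ^ (α - 1) * 2 ^ k = ((2 : ℝ) ^ k) ^ (α - 1) * ((2 : ℝ) ^ k) ^ (1 : ℝ) := by
              rw [Real.rpow_one]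
            rw [this, ← Real.rpow_add (by positivity)]
            congr 1
            ring
          have h6 : x ^ α = x ^ (α - 1) * x := by
            have : x ^ (α - 1) * x = x ^ (α - 1) * x ^ (1 : ℝ) := by rw [Real.rpow_one]
            rw [this, ← Real.rpow_add hx0]
            congr 1
            ring
          calc ((2 : ℝ) ^ k) ^ α * min A (D / 2 ^ k) ≤ ((2 : ℝ) ^ k) ^ α * (D / 2 ^ k) := by
                apply mul_le_mul_of_nonneg_left (min_le_right _ _) (by positivity)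
            _ = ((2 : ℝ) ^ k) ^ (α - 1) * D := by
                rw [h5]
                field_simp
            _ = ((2 : ℝ) ^ j) ^ (α - 1) * ((2 : ℝ) ^ (α - 1)) ^ (k - j) * D := by rw [h1]
            _ ≤ x ^ (α - 1) * ((2 : ℝ) ^ (α - 1)) ^ (k - j) * D := by gcongr
            _ = _ := by rw [h6, hDx]; ring
      _ = (A * x ^ α) * ∑ k ∈ J2, ((2 : ℝ) ^ (α - 1)) ^ (k - j) := by rw [Finset.mul_sum]
      _ ≤ (A * x ^ α) * (1 - (2 : ℝ) ^ (α - 1))⁻¹ := by
          apply mul_le_mul_of_nonneg_left _ (by positivity)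
          apply geo_sum J2 (fun k => k - j) _ (by positivity) ht2
          intro k hk k' hk' hkk
          have h3 : j ≤ k := hmin k (by exact_mod_cast hk)
          have h4 : j ≤ k' := hmin k' (by exact_mod_cast hk')
          simp only at hkk
          omega
      _ = _ := by ring
  unfold Ca
  rw [add_mul]
  exact add_le_add hpart1 hpart2

theorem sum_rpow_le {ι : Type} (s : Finset ι) (y : ι → ℝ) (hy : ∀ i ∈ s, 0 ≤ y i) {q : ℝ}
    (hq : 1 ≤ q) : ∑ i ∈ s, y i ^ q ≤ (∑ i ∈ s, y i) ^ q := by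
  classical
  induction s using Finset.induction_on with
  | empty => simp [Real.zero_rpow (by linarith : q ≠ 0)]
  | insert a s ha ih =>
    rw [Finset.sum_insert ha, Finset.sum_insert ha]
    have h1 := ih (fun i hi => hy i (Finset.mem_insert_of_mem hi))
    have h2 := Real.add_rpow_le_rpow_add (hy a (Finset.mem_insert_self _ _))
      (Finset.sum_nonneg fun i hi => hy i (Finset.mem_insert_of_mem hi)) hq
    linarith

/-- an admissible dilation parameter -/
noncomputable def KK (d : ℕ) (β Γ : ℝ) : ℕ := max 2 ⌈(4 * 2 ^ d * Γ) ^ (1 / β)⌉₊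

theorem KK_two (d : ℕ) (β Γ : ℝ) : 2 ≤ KK d β Γ := le_max_left _ _

theorem KK_spec (d : ℕ) {β Γ : ℝ} (hβ0 : 0 < β) (hΓ : 1 ≤ Γ) :
    4 * 2 ^ d * Γ ≤ (KK d β Γ : ℝ) ^ β := by
  have h0 : (0 : ℝ) ≤ 4 * 2 ^ d * Γ := by positivity
  have h1 : (4 * 2 ^ d * Γ) ^ (1 / β) ≤ (KK d β Γ : ℝ) := by
    refine (Nat.le_ceil _).trans ?_
    have h2 : ⌈(4 * 2 ^ d * Γ) ^ (1 / β)⌉₊ ≤ KK d β Γ := le_max_right _ _
    exact_mod_cast h2
  calc 4 * 2 ^ d * Γ = ((4 * 2 ^ d * Γ) ^ (1 / β)) ^ β := by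
        rw [← Real.rpow_mul h0, one_div, inv_mul_cancel₀ hβ0.ne', Real.rpow_one]
    _ ≤ _ := Real.rpow_le_rpow (by positivity) h1 hβ0.le

/-- the constant for separated families -/
noncomputable def CK (d : ℕ) (β Γ : ℝ) : ℝ :=
  2 * (Cw d β Γ (KK d β Γ) * CW d β Γ (KK d β Γ))

theorem CK_nonneg (hd : 1 ≤ d) {β Γ : ℝ} (hβ0 : 0 < β) (hΓ : 1 ≤ Γ) : 0 ≤ CK d β Γ := by
  unfold CK
  apply mul_nonneg (by norm_num)
  apply mul_nonneg _ (CW_nonneg hd hβ0 hΓ _)
  unfold Cw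
  have := cI_pos hd
  have h2 : 0 ≤ Γ * ((KK d β Γ : ℕ) : ℝ) ^ ((d : ℝ) - β) := by positivity
  positivity

theorem sep_sum (hd : 1 ≤ d) {β Γ : ℝ} {f : (Fin d → ℤ) → ℝ} {ρ : (Fin d → ℤ) → ℕ}
    {B : Finset (Fin d → ℤ)} (hβ0 : 0 < β) (hβ1 : β < 1) (hΓ : 1 ≤ Γ)
    (hG : Good β Γ f ρ B) (hS : Sep ρ B) {G : ℝ}
    (hGG : ∀ Z : Finset ((Fin d → ℤ) × Fin d), ∑ p ∈ Z, |f (p.1 + e p.2) - f p.1| ≤ G) :
    ∑ b ∈ B, S f b (ρ b) / 2 ^ lev ρ b ≤ CK d β Γ * G := by
  classical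
  set K := KK d β Γ with hK
  let Z : Finset ((Fin d → ℤ) × Fin d) := (B.biUnion fun b => cube b (K * 2 ^ lev ρ b)) ×ˢ univ
  have h := key hd hβ0 hβ1 hΓ (KK_two d β Γ) (KK_spec d hβ0 hΓ) hG hS Z (by
    intro b hb x hx i
    simp only [Z, Finset.mem_product, Finset.mem_univ, and_true, Finset.mem_biUnion]
    exact ⟨b, hb, hx⟩)
  refine h.trans ?_
  apply mul_le_mul_of_nonneg_left (hGG Z)
  exact CK_nonneg hd hβ0 hΓ

/-- constant for the separated families with weights -/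
noncomputable def CS (d : ℕ) (β Γ α : ℝ) : ℝ :=
  CK d β Γ + Ca α * (CK d β Γ ^ (1 - α) * (5 ^ d : ℝ) ^ α)

theorem sep_weight (hd : 1 ≤ d) {β Γ : ℝ} {f : (Fin d → ℤ) → ℝ} {ρ : (Fin d → ℤ) → ℕ}
    {B : Finset (Fin d → ℤ)} (hβ0 : 0 < β) (hβ1 : β < 1) (hΓ : 1 ≤ Γ)
    (hG : Good β Γ f ρ B) (hS : Sep ρ B) {G F : ℝ}
    (hGG : ∀ Z : Finset ((Fin d → ℤ) × Fin d), ∑ p ∈ Z, |f (p.1 + e p.2) - f p.1| ≤ G)
    (hFF : ∀ Z : Finset (Fin d → ℤ), ∑ m ∈ Z, f m ≤ F) {α : ℝ} (hα0 : 0 ≤ α) (hα1 : α < 1) :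
    ∑ b ∈ B, ((2 : ℝ) ^ lev ρ b) ^ (α - 1) * S f b (ρ b) ≤
      CS d β Γ α * (G ^ (1 - α) * F ^ α) := by
  classical
  have hCK := CK_nonneg hd hβ0 hΓ
  have hG0 : 0 ≤ G := by simpa using hGG ∅
  have hF0 : 0 ≤ F := by simpa using hFF ∅
  rcases hα0.eq_or_lt with hα | hα
  · rw [← hα]
    have h1 := sep_sum hd hβ0 hβ1 hΓ hG hS hGG
    have h2 : ∑ b ∈ B, ((2 : ℝ) ^ lev ρ b) ^ ((0 : ℝ) - 1) * S f b (ρ b) =
        ∑ b ∈ B, S f b (ρ b) / 2 ^ lev ρ b := by
      refine Finset.sum_congr rfl fun b _ => ?_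
      rw [zero_sub, Real.rpow_neg_one]
      field_simp
    rw [h2]
    refine h1.trans ?_
    unfold CS
    simp only [sub_zero, Real.rpow_one, Real.rpow_zero, mul_one]
    have h3 : 0 ≤ Ca 0 := by
      unfold Ca
      have h4 : (0 : ℝ) ≤ (1 - (2 : ℝ) ^ (-(0 : ℝ)))⁻¹ := by norm_num
      have h5 : (2 : ℝ) ^ ((0 : ℝ) - 1) < 1 :=
        Real.rpow_lt_one_of_one_lt_of_neg (by norm_num) (by norm_num)
      have h6 : 0 ≤ (1 - (2 : ℝ) ^ ((0 : ℝ) - 1))⁻¹ := inv_nonneg.mpr (by linarith)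
      linarith
    have h7 : 0 ≤ Ca 0 * CK d β Γ * G := by positivity
    linarith
  · -- group by levels
    set J := B.image (lev ρ) with hJ
    have hgroup : ∑ b ∈ B, ((2 : ℝ) ^ lev ρ b) ^ (α - 1) * S f b (ρ b) =
        ∑ k ∈ J, ((2 : ℝ) ^ k) ^ α * ∑ b ∈ B.filter (fun b => lev ρ b = k), S f b (ρ b) / 2 ^ k := by
      rw [← Finset.sum_fiberwise_of_maps_to (g := lev ρ) (t := J)
        (fun b hb => Finset.mem_image_of_mem _ hb)]
      refine Finset.sum_congr rfl fun k _ => ?_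
      rw [Finset.mul_sum]
      refine Finset.sum_congr rfl fun b hb => ?_
      rw [(Finset.mem_filter.mp hb).2]
      have h5 : ((2 : ℝ) ^ k) ^ α = ((2 : ℝ) ^ k) ^ (α - 1) * 2 ^ k := by
        have : ((2 : ℝ) ^ k) ^ (α - 1) * 2 ^ k = ((2 : ℝ) ^ k) ^ (α - 1) * ((2 : ℝ) ^ k) ^ (1 : ℝ) := by
          rw [Real.rpow_one]
        rw [this, ← Real.rpow_add (by positivity)]
        congr 1
        ring
      rw [h5]
      field_simp
    rw [hgroup]
    have hlevel : ∀ k ∈ J, ((2 : ℝ) ^ k) ^ α *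
        ∑ b ∈ B.filter (fun b => lev ρ b = k), S f b (ρ b) / 2 ^ k ≤
        ((2 : ℝ) ^ k) ^ α * min (CK d β Γ * G) ((5 ^ d * F) / 2 ^ k) := by
      intro k _
      apply mul_le_mul_of_nonneg_left _ (by positivity)
      apply le_min
      · have hsub : B.filter (fun b => lev ρ b = k) ⊆ B := Finset.filter_subset _ _
        have h1 := sep_sum hd hβ0 hβ1 hΓ (hG.mono hsub)
          (fun b hb b' hb' => hS b (hsub hb) b' (hsub hb')) hGG
        refine le_trans (le_of_eq ?_) h1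
        refine Finset.sum_congr rfl fun b hb => ?_
        rw [(Finset.mem_filter.mp hb).2]
      · rw [← Finset.sum_div]
        apply div_le_div_of_nonneg_right _ (by positivity)
        set T := B.filter (fun b => lev ρ b = k) with hT
        set U := T.biUnion (fun b => cube b (2 * 2 ^ k)) with hU
        calc ∑ b ∈ T, S f b (ρ b) ≤ ∑ b ∈ T, ∑ m ∈ U, if m ∈ cube b (2 * 2 ^ k) then f m else 0 := by
              refine Finset.sum_le_sum fun b hb => ?_
              rw [← Finset.sum_filter]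
              apply Finset.sum_le_sum_of_subset_of_nonneg _ (fun m _ _ => hG.nonneg m)
              intro m hm
              have hlk : lev ρ b = k := (Finset.mem_filter.mp hb).2
              have hm2 : m ∈ cube b (2 * 2 ^ k) := by
                apply cube_subset _ hm
                intro i
                simp only [sub_self, abs_zero, zero_add]
                have := lt_two_pow_lev (ρ := ρ) (b := b)
                rw [hlk] at this
                exact_mod_cast this.le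
              rw [Finset.mem_filter]
              exact ⟨Finset.mem_biUnion.mpr ⟨b, hb, hm2⟩, hm2⟩
          _ = ∑ m ∈ U, ∑ b ∈ T, if m ∈ cube b (2 * 2 ^ k) then f m else 0 := Finset.sum_comm
          _ ≤ ∑ m ∈ U, (5 : ℝ) ^ d * f m := by
              refine Finset.sum_le_sum fun m _ => ?_
              rw [← Finset.sum_filter, Finset.sum_const, nsmul_eq_mul]
              apply mul_le_mul_of_nonneg_right _ (hG.nonneg m)
              have hm := mult_bound hS 2 m k (T.filter (fun b => m ∈ cube b (2 * 2 ^ k)))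
                ((Finset.filter_subset _ _).trans (Finset.filter_subset _ _))
                (fun b hb => (Finset.mem_filter.mp (Finset.mem_filter.mp hb).1).2)
                (fun b hb => (Finset.mem_filter.mp hb).2)
              norm_num at hm
              exact_mod_cast hm
          _ = (5 : ℝ) ^ d * ∑ m ∈ U, f m := by rw [Finset.mul_sum]
          _ ≤ 5 ^ d * F := mul_le_mul_of_nonneg_left (hFF U) (by positivity)
    refine (Finset.sum_le_sum hlevel).trans ?_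
    refine (geo_min hα hα1 J (mul_nonneg hCK hG0) (by positivity)).trans ?_
    rw [Real.mul_rpow hCK hG0, Real.mul_rpow (by positivity) hF0]
    unfold CS
    have h8 : 0 ≤ CK d β Γ * (G ^ (1 - α) * F ^ α) := by positivity
    calc Ca α * (CK d β Γ ^ (1 - α) * G ^ (1 - α) * ((5 ^ d) ^ α * F ^ α))
        = Ca α * (CK d β Γ ^ (1 - α) * (5 ^ d : ℝ) ^ α) * (G ^ (1 - α) * F ^ α) := by ring
      _ ≤ _ := by
          rw [add_mul]
          linarith

end Pool.Agent.Helper383.FM
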